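import Pool.Agent.KS6_63.GFF.Defs2

open MeasureTheory ProbabilityTheory

namespace H941.A1

theorem mem_nbrs_comm (u v : ℤ × ℤ) : u ∈ nbrs v ↔ v ∈ nbrs u := by
  obtain ⟨a, b⟩ := u
  obtain ⟨c, d⟩ := v
  simp only [nbrs, Finset.mem_insert, Finset.mem_singleton, Prod.mk.injEq]
  omega

theorem walkProb_zero (D : Finset (ℤ × ℤ)) (u v : ℤ × ℤ) [Decidable (u ∈ D ∧ u = v)] :
    walkProb D 0 u v = if u ∈ D ∧ u = v then 1 else 0 := by
  rw [walkProb]
  congr

theorem walkProb_succ_mem (D : Finset (ℤ × ℤ)) (n : ℕ) {u : ℤ × ℤ} (v : ℤ × ℤ) (h : u ∈ D) :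
    walkProb D (n + 1) u v = (1 / 4) * ∑ z ∈ nbrs u, walkProb D n z v := by
  rw [walkProb, if_pos h]

theorem walkProb_succ_not (D : Finset (ℤ × ℤ)) (n : ℕ) {u : ℤ × ℤ} (v : ℤ × ℤ) (h : u ∉ D) :
    walkProb D (n + 1) u v = 0 := by
  rw [walkProb, if_neg h]

theorem walkProb_nonneg (D : Finset (ℤ × ℤ)) (n : ℕ) : ∀ u v, 0 ≤ walkProb D n u v := by
  classical
  induction n with
  | zero =>
    intro u v
    rw [walkProb_zero]
    split_ifs <;> norm_num
  | succ n ih =>
    intro u v
    by_cases h : u ∈ D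
    · rw [walkProb_succ_mem D n v h]
      exact mul_nonneg (by norm_num) (Finset.sum_nonneg fun z _ => ih z v)
    · rw [walkProb_succ_not D n v h]

theorem walkProb_left (D : Finset (ℤ × ℤ)) (n : ℕ) {u : ℤ × ℤ} (v : ℤ × ℤ) (h : u ∉ D) :
    walkProb D n u v = 0 := by
  classical
  cases n with
  | zero => rw [walkProb_zero, if_neg (fun h' => h h'.1)]
  | succ n => exact walkProb_succ_not D n v h

theorem walkProb_right (D : Finset (ℤ × ℤ)) (n : ℕ) {v : ℤ × ℤ} (h : v ∉ D) :
    ∀ u : ℤ × ℤ, walkProb D n u v = 0 := by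
  classical
  induction n with
  | zero =>
    intro u
    rw [walkProb_zero, if_neg]
    rintro ⟨h1, rfl⟩
    exact h h1
  | succ n ih =>
    intro u
    by_cases hu : u ∈ D
    · rw [walkProb_succ_mem D n v hu, Finset.sum_eq_zero fun z _ => ih z, mul_zero]
    · exact walkProb_succ_not D n v hu

/-- the recursion on the right -/
theorem walkProb_rec (D : Finset (ℤ × ℤ)) (n : ℕ) : ∀ {u v : ℤ × ℤ}, v ∈ D →
    walkProb D (n + 1) u v = (1 / 4) * ∑ z ∈ nbrs v, walkProb D n u z := by
  classical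
  induction n with
  | zero =>
    intro u v hv
    by_cases hu : u ∈ D
    · rw [walkProb_succ_mem D 0 v hu]
      congr 1
      simp only [walkProb_zero]
      have h1 : ∑ z ∈ nbrs u, (if z ∈ D ∧ z = v then (1 : ℝ) else 0) =
          if v ∈ nbrs u then 1 else 0 := by
        rw [← Finset.sum_ite_eq' (nbrs u) v (fun _ => (1 : ℝ))]
        refine Finset.sum_congr rfl fun z _ => ?_
        by_cases hz : z = v
        · rw [if_pos hz, if_pos ⟨hz ▸ hv, hz⟩]
        · rw [if_neg hz, if_neg (fun h => hz h.2)]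
      have h2 : ∑ z ∈ nbrs v, (if u ∈ D ∧ u = z then (1 : ℝ) else 0) =
          if u ∈ nbrs v then 1 else 0 := by
        rw [← Finset.sum_ite_eq (nbrs v) u (fun _ => (1 : ℝ))]
        refine Finset.sum_congr rfl fun z _ => ?_
        by_cases hz : u = z
        · rw [if_pos hz, if_pos ⟨hu, hz⟩]
        · rw [if_neg hz, if_neg (fun h => hz h.2)]
      rw [h1, h2]
      simp only [mem_nbrs_comm u v]
    · rw [walkProb_succ_not D 0 v hu]
      rw [Finset.sum_eq_zero fun z _ => walkProb_left D 0 z hu, mul_zero]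
  | succ n ih =>
    intro u v hv
    by_cases hu : u ∈ D
    · rw [walkProb_succ_mem D (n + 1) v hu]
      congr 1
      have h1 : ∑ z ∈ nbrs u, walkProb D (n + 1) z v =
          ∑ z ∈ nbrs u, (1 / 4) * ∑ w ∈ nbrs v, walkProb D n z w :=
        Finset.sum_congr rfl fun z _ => ih hv
      have h2 : ∑ w ∈ nbrs v, walkProb D (n + 1) u w =
          ∑ w ∈ nbrs v, (1 / 4) * ∑ z ∈ nbrs u, walkProb D n z w :=
        Finset.sum_congr rfl fun w _ => walkProb_succ_mem D n w hu
      rw [h1, h2, ← Finset.mul_sum, ← Finset.mul_sum, Finset.sum_comm]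
    · rw [walkProb_succ_not D (n + 1) v hu]
      rw [Finset.sum_eq_zero fun z _ => walkProb_left D (n + 1) z hu, mul_zero]

theorem walkProb_comm (D : Finset (ℤ × ℤ)) (n : ℕ) :
    ∀ u v, walkProb D n u v = walkProb D n v u := by
  classical
  induction n with
  | zero =>
    intro u v
    rw [walkProb_zero, walkProb_zero]
    by_cases h : u = v
    · rw [h]
    · rw [if_neg (fun h' => h h'.2), if_neg (fun h' => h h'.2.symm)]
  | succ n ih =>
    intro u v
    by_cases hu : u ∈ D
    · rw [walkProb_succ_mem D n v hu, walkProb_rec D n hu]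
      congr 1
      exact Finset.sum_congr rfl fun z _ => ih z v
    · rw [walkProb_succ_not D n v hu, walkProb_right D (n + 1) hu v]

theorem walkProb_mono {D D' : Finset (ℤ × ℤ)} (hD : D ⊆ D') (n : ℕ) :
    ∀ u v, walkProb D n u v ≤ walkProb D' n u v := by
  classical
  induction n with
  | zero =>
    intro u v
    by_cases h : u ∈ D ∧ u = v
    · rw [walkProb_zero, walkProb_zero, if_pos h, if_pos ⟨hD h.1, h.2⟩]
    · rw [walkProb_zero, if_neg h]
      exact walkProb_nonneg D' 0 u v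
  | succ n ih =>
    intro u v
    by_cases hu : u ∈ D
    · rw [walkProb_succ_mem D n v hu, walkProb_succ_mem D' n v (hD hu)]
      exact mul_le_mul_of_nonneg_left (Finset.sum_le_sum fun z _ => ih z v) (by norm_num)
    · rw [walkProb_succ_not D n v hu]
      exact walkProb_nonneg D' (n + 1) u v

theorem _root_.H941.walkProb_basic (D : Finset (ℤ × ℤ)) :
    (∀ n u v, 0 ≤ walkProb D n u v) ∧
    (∀ n u v, u ∉ D ∨ v ∉ D → walkProb D n u v = 0) ∧
    (∀ n u v, walkProb D n u v = walkProb D n v u) ∧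
    (∀ D' : Finset (ℤ × ℤ), D ⊆ D' → ∀ n u v, walkProb D n u v ≤ walkProb D' n u v) := by
  refine ⟨walkProb_nonneg D, ?_, walkProb_comm D, fun D' h => walkProb_mono h⟩
  rintro n u v (h | h)
  · exact walkProb_left D n v h
  · exact walkProb_right D n h u

end H941.A1
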