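import Pool.Agent.KS6_63.GFF.Defs2
import Pool.Agent.KS6_63.GFF.A1

open MeasureTheory ProbabilityTheory

namespace H941.A2

theorem h187_partial (D : Finset (ℤ × ℤ)) (f g : ℤ × ℤ → ℝ) (hg : ∀ z, 0 ≤ g z)
    (h : ∀ x ∈ D, f x + (1 / 4) * ∑ z ∈ nbrs x, g z ≤ g x) (m : ℕ) :
    ∀ x, ∑ n ∈ Finset.range m, ∑ v ∈ D, walkProb D n x v * f v ≤ g x := by
  induction m with
  | zero => intro x; simpa using hg x
  | succ m ih =>
    intro x
    by_cases hx : x ∈ D
    · rw [Finset.sum_range_succ']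
      have h0 : ∑ v ∈ D, walkProb D 0 x v * f v = f x := by
        have : ∀ v ∈ D, walkProb D 0 x v * f v = if x = v then f v else 0 := by
          intro v hv
          simp only [walkProb]
          by_cases hxv : x = v
          · subst hxv; simp [hx]
          · simp [hxv]
        rw [Finset.sum_congr rfl this, Finset.sum_ite_eq]
        simp [hx]
      have h1 : ∑ n ∈ Finset.range m, ∑ v ∈ D, walkProb D (n + 1) x v * f v
          = (1 / 4) * ∑ z ∈ nbrs x, ∑ n ∈ Finset.range m, ∑ v ∈ D, walkProb D n z v * f v := by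
        have h2 : ∀ n, ∑ v ∈ D, walkProb D (n + 1) x v * f v
            = (1 / 4) * ∑ z ∈ nbrs x, ∑ v ∈ D, walkProb D n z v * f v := by
          intro n
          rw [Finset.sum_comm, Finset.mul_sum]
          refine Finset.sum_congr rfl fun v _ => ?_
          simp only [walkProb, hx, if_true]
          rw [mul_assoc, Finset.sum_mul]
        rw [Finset.sum_congr rfl fun n _ => h2 n, ← Finset.mul_sum, Finset.sum_comm]
      rw [h0, h1]
      have h3 : ∑ z ∈ nbrs x, ∑ n ∈ Finset.range m, ∑ v ∈ D, walkProb D n z v * f v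
          ≤ ∑ z ∈ nbrs x, g z := Finset.sum_le_sum fun z _ => ih z
      have := h x hx
      linarith
    · have : ∀ n, ∀ v, walkProb D n x v = 0 := fun n v => (walkProb_basic D).2.1 n x v (Or.inl hx)
      simp only [this, zero_mul, Finset.sum_const_zero]
      exact hg x

theorem h187_nbrs_sum (x : ℤ × ℤ) (g : ℤ × ℤ → ℝ) :
    ∑ z ∈ nbrs x, g z = g (x.1 + 1, x.2) + (g (x.1 - 1, x.2) + (g (x.1, x.2 + 1) + g (x.1, x.2 - 1))) := by
  unfold nbrs
  rw [Finset.sum_insert, Finset.sum_insert, Finset.sum_insert, Finset.sum_singleton]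
  · simp only [Finset.mem_singleton, Prod.mk.injEq, not_and]
    intro _ h; omega
  · simp only [Finset.mem_insert, Finset.mem_singleton, Prod.mk.injEq, not_or, not_and]
    exact ⟨fun h => by omega, fun h => by omega⟩
  · simp only [Finset.mem_insert, Finset.mem_singleton, Prod.mk.injEq, not_or, not_and]
    exact ⟨fun h => by omega, fun h => by omega, fun h => by omega⟩

theorem h187_bd (D : Finset (ℤ × ℤ)) : ∃ R : ℤ, 0 < R ∧ ∀ z ∈ D, |z.1| < R := by
  refine ⟨1 + ∑ z ∈ D, |z.1|, ?_, ?_⟩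
  · have : 0 ≤ ∑ z ∈ D, |z.1| := Finset.sum_nonneg fun _ _ => abs_nonneg _
    linarith
  · intro z hz
    have : |z.1| ≤ ∑ z ∈ D, |z.1| :=
      Finset.single_le_sum (f := fun z : ℤ × ℤ => |z.1|) (fun _ _ => abs_nonneg _) hz
    linarith

theorem h187_summable (D : Finset (ℤ × ℤ)) (u v : ℤ × ℤ) :
    Summable (fun n => walkProb D n u v) := by
  by_cases hv : v ∈ D
  swap
  · have : ∀ n, walkProb D n u v = 0 := fun n => (walkProb_basic D).2.1 n u v (Or.inr hv)
    simp only [this]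
    exact summable_zero
  obtain ⟨R, hR, hD⟩ := h187_bd D
  obtain ⟨g, hg, hval⟩ : ∃ g : ℤ × ℤ → ℝ, (∀ z, 0 ≤ g z) ∧
      ∀ z : ℤ × ℤ, |z.1| ≤ R → g z = 2 * ((R : ℝ) ^ 2 - (z.1 : ℝ) ^ 2) := by
    refine ⟨fun z => max 0 (2 * ((R : ℝ) ^ 2 - (z.1 : ℝ) ^ 2)), fun z => le_max_left _ _, ?_⟩
    intro z hz
    apply max_eq_right
    have h1 : (z.1 : ℝ) ^ 2 ≤ (R : ℝ) ^ 2 := by
      have : |(z.1 : ℝ)| ≤ |(R : ℝ)| := by
        rw [abs_of_pos (by exact_mod_cast hR : (0 : ℝ) < R)]
        exact_mod_cast hz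
      exact sq_le_sq.mpr this
    linarith
  have h : ∀ x ∈ D, (fun _ : ℤ × ℤ => (1 : ℝ)) x + (1 / 4) * ∑ z ∈ nbrs x, g z ≤ g x := by
    intro x hx
    have hx1 := hD x hx
    have hx2 := abs_lt.mp hx1
    have e1 := hval (x.1 + 1, x.2) (abs_le.mpr ⟨by simp only; omega, by simp only; omega⟩)
    have e2 := hval (x.1 - 1, x.2) (abs_le.mpr ⟨by simp only; omega, by simp only; omega⟩)
    have e3 := hval (x.1, x.2 + 1) hx1.le
    have e4 := hval (x.1, x.2 - 1) hx1.le
    have e5 := hval x hx1.le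
    rw [h187_nbrs_sum, e1, e2, e3, e4, e5]
    push_cast
    ring_nf
    exact le_refl _
  have key := h187_partial D (fun _ => 1) g hg h
  refine summable_of_sum_range_le (c := g u) (fun n => (walkProb_basic D).1 n u v) ?_
  intro m
  refine le_trans ?_ (key m u)
  refine Finset.sum_le_sum fun n _ => ?_
  have := Finset.single_le_sum (f := fun v => walkProb D n u v * 1)
    (fun v _ => by simpa using (walkProb_basic D).1 n u v) hv
  simpa using this

theorem _root_.H941.green_le (D : Finset (ℤ × ℤ)) :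
    (∀ u v, Summable (fun n => walkProb D n u v)) ∧
    (∀ f g : ℤ × ℤ → ℝ, (∀ z ∈ D, 0 ≤ f z) → (∀ z, 0 ≤ g z) →
      (∀ x ∈ D, f x + (1 / 4) * ∑ z ∈ nbrs x, g z ≤ g x) →
      ∀ x, ∑ v ∈ D, green D x v * f v ≤ g x) := by
  refine ⟨h187_summable D, ?_⟩
  intro f g _ hg h x
  have key := h187_partial D f g hg h
  have hlim : Filter.Tendsto (fun m => ∑ n ∈ Finset.range m, ∑ v ∈ D, walkProb D n x v * f v)
      Filter.atTop (nhds (∑ v ∈ D, green D x v * f v)) := by
    have h1 : ∀ m, ∑ n ∈ Finset.range m, ∑ v ∈ D, walkProb D n x v * f v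
        = ∑ v ∈ D, (∑ n ∈ Finset.range m, walkProb D n x v) * f v := by
      intro m
      rw [Finset.sum_comm]
      refine Finset.sum_congr rfl fun v _ => ?_
      rw [Finset.sum_mul]
    simp only [h1]
    refine tendsto_finsetSum _ fun v _ => ?_
    exact ((h187_summable D x v).hasSum.tendsto_sum_nat).mul_const _
  exact le_of_tendsto' hlim fun m => key m x

theorem _root_.H941.walkProb_summable (D : Finset (ℤ × ℤ)) (u v : ℤ × ℤ) :
    Summable (fun n => walkProb D n u v) :=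
  (green_le D).1 u v

end H941.A2
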