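import Pool.Agent.KS6_63.GFF.Defs2
import Pool.Agent.KS6_63.GFF.A1
import Pool.Agent.KS6_63.GFF.A2

open MeasureTheory ProbabilityTheory

namespace H941.A3

theorem _root_.H941.green_basic (D : Finset (ℤ × ℤ)) :
    (∀ u v, 0 ≤ green D u v) ∧
    (∀ u v, u ∉ D ∨ v ∉ D → green D u v = 0) ∧
    (∀ u v, green D u v = green D v u) ∧
    (∀ D' : Finset (ℤ × ℤ), D ⊆ D' → ∀ u v, green D u v ≤ green D' u v) ∧
    (∀ u ∈ D, ∀ v, green D u v = (if u = v then 1 else 0) + (1 / 4) * ∑ z ∈ nbrs u, green D z v) ∧
    (∀ f g : ℤ × ℤ → ℝ, (∀ z, z ∉ D → g z = 0) →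
      (∀ x ∈ D, g x ≤ f x + (1 / 4) * ∑ z ∈ nbrs x, g z) →
      ∀ x ∈ D, g x ≤ ∑ v ∈ D, green D x v * f v) := by
  have hsymn : ∀ z v : ℤ × ℤ, z ∈ nbrs v ↔ v ∈ nbrs z := by
    rintro ⟨a, b⟩ ⟨c, d⟩
    simp only [nbrs, Finset.mem_insert, Finset.mem_singleton, Prod.mk.injEq]
    omega
  obtain ⟨w1, w2, w3, w4⟩ := walkProb_basic D
  have g1 : ∀ u v, 0 ≤ green D u v := fun u v => tsum_nonneg fun n => w1 n u v
  have g2 : ∀ u v, u ∉ D ∨ v ∉ D → green D u v = 0 := by
    intro u v h
    unfold green
    simp only [w2 _ u v h, tsum_zero]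
  have g3 : ∀ u v, green D u v = green D v u := by
    intro u v
    unfold green
    exact tsum_congr fun n => w3 n u v
  have g5 : ∀ u ∈ D, ∀ v, green D u v =
      (if u = v then 1 else 0) + (1 / 4) * ∑ z ∈ nbrs u, green D z v := by
    intro u hu v
    unfold green
    rw [(walkProb_summable D u v).tsum_eq_zero_add]
    congr 1
    · simp only [walkProb, hu, true_and]
    · simp only [walkProb, hu, if_true]
      rw [tsum_mul_left, Summable.tsum_finsetSum fun z _ => walkProb_summable D z v]
  refine ⟨g1, g2, g3, ?_, g5, ?_⟩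
  · intro D' hD u v
    exact Summable.tsum_le_tsum (fun n => w4 D' hD n u v) (walkProb_summable D u v)
      (walkProb_summable D' u v)
  · intro f g hg hsub x hx
    have hswap : ∑ v ∈ D, ∑ z ∈ nbrs v, green D x v * g z =
        ∑ z ∈ D, ∑ v ∈ nbrs z, green D x v * g z := by
      have e1 : ∀ v : ℤ × ℤ, ∑ z ∈ nbrs v, green D x v * g z =
          ∑ z ∈ D, if z ∈ nbrs v then green D x v * g z else 0 := by
        intro v
        rw [Finset.sum_ite_mem]
        symm
        apply Finset.sum_subset Finset.inter_subset_right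
        intro z hz hzD
        have : z ∉ D := fun h => hzD (Finset.mem_inter.2 ⟨h, hz⟩)
        rw [hg z this, mul_zero]
      have e2 : ∀ z : ℤ × ℤ, ∑ v ∈ nbrs z, green D x v * g z =
          ∑ v ∈ D, if v ∈ nbrs z then green D x v * g z else 0 := by
        intro z
        rw [Finset.sum_ite_mem]
        symm
        apply Finset.sum_subset Finset.inter_subset_right
        intro v hv hvD
        have : v ∉ D := fun h => hvD (Finset.mem_inter.2 ⟨h, hv⟩)
        rw [g2 x v (Or.inr this), zero_mul]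
      simp only [e1, e2]
      rw [Finset.sum_comm]
      simp only [hsymn]
    have hkey : g x = ∑ v ∈ D, green D x v * (g v - (1 / 4) * ∑ z ∈ nbrs v, g z) := by
      have e3 : ∑ v ∈ D, green D x v * (g v - (1 / 4) * ∑ z ∈ nbrs v, g z) =
          ∑ v ∈ D, green D x v * g v - (1 / 4) * ∑ v ∈ D, ∑ z ∈ nbrs v, green D x v * g z := by
        rw [Finset.mul_sum, ← Finset.sum_sub_distrib]
        apply Finset.sum_congr rfl
        intro v _
        rw [← Finset.mul_sum]
        ring
      rw [e3, hswap, Finset.mul_sum, ← Finset.sum_sub_distrib]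
      have e4 : ∀ z ∈ D, green D x z * g z - 1 / 4 * ∑ v ∈ nbrs z, green D x v * g z =
          if z = x then g z else 0 := by
        intro z hz
        have h5 := g5 z hz x
        have e5 : ∑ v ∈ nbrs z, green D x v * g z = (∑ v ∈ nbrs z, green D v x) * g z := by
          rw [Finset.sum_mul]
          apply Finset.sum_congr rfl
          intro v _
          rw [g3 x v]
        rw [e5, g3 x z, h5]
        split_ifs <;> ring
      rw [Finset.sum_congr rfl e4, Finset.sum_ite_eq' D x g, if_pos hx]
    rw [hkey]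
    apply Finset.sum_le_sum
    intro v hv
    apply mul_le_mul_of_nonneg_left _ (g1 x v)
    have := hsub v hv
    linarith

end H941.A3
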