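import Pool.Agent.KS6_63.GFF.Defs2
import Pool.Agent.KS6_63.GFF.A3

open MeasureTheory ProbabilityTheory

namespace H941.A4

theorem mem_nbrs_comm (x z : ℤ × ℤ) : z ∈ nbrs x ↔ x ∈ nbrs z := by
  obtain ⟨x1, x2⟩ := x
  obtain ⟨z1, z2⟩ := z
  simp only [nbrs, Finset.mem_insert, Finset.mem_singleton, Prod.mk.injEq]
  omega

theorem sum_nbrs_eq (D : Finset (ℤ × ℤ)) (k : ℤ × ℤ → ℝ) (hk : ∀ z, z ∉ D → k z = 0) (x : ℤ × ℤ) :
    ∑ z ∈ nbrs x, k z = ∑ z ∈ D, if z ∈ nbrs x then k z else 0 := by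
  rw [Finset.sum_ite_mem]
  symm
  apply Finset.sum_subset Finset.inter_subset_right
  intro z hz hz'
  apply hk
  intro hD
  exact hz' (Finset.mem_inter.2 ⟨hD, hz⟩)

/-- expansion of the adjacency form -/
theorem adj_expand (D : Finset (ℤ × ℤ)) (h k : ℤ × ℤ → ℝ) (hk : ∀ z, z ∉ D → k z = 0) :
    ∑ x ∈ D, h x * ((1 / 4) * ∑ z ∈ nbrs x, k z) =
      ∑ x ∈ D, ∑ z ∈ D, if z ∈ nbrs x then (1 / 4) * (h x * k z) else 0 := by
  refine Finset.sum_congr rfl fun x _ => ?_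
  rw [sum_nbrs_eq D k hk x, Finset.mul_sum, Finset.mul_sum]
  refine Finset.sum_congr rfl fun z _ => ?_
  split_ifs
  · ring
  · ring

/-- symmetry of the adjacency form -/
theorem adj_symm (D : Finset (ℤ × ℤ)) (h k : ℤ × ℤ → ℝ) (hh : ∀ z, z ∉ D → h z = 0)
    (hk : ∀ z, z ∉ D → k z = 0) :
    ∑ x ∈ D, h x * ((1 / 4) * ∑ z ∈ nbrs x, k z) = ∑ x ∈ D, k x * ((1 / 4) * ∑ z ∈ nbrs x, h z) := by
  rw [adj_expand D h k hk, adj_expand D k h hh, Finset.sum_comm]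
  refine Finset.sum_congr rfl fun x _ => ?_
  refine Finset.sum_congr rfl fun z _ => ?_
  by_cases hz : z ∈ nbrs x
  · rw [if_pos hz, if_pos ((mem_nbrs_comm x z).1 hz)]
    ring
  · rw [if_neg hz, if_neg (fun h => hz ((mem_nbrs_comm x z).2 h))]

theorem card_nbrs_le (x : ℤ × ℤ) : (nbrs x).card ≤ 4 := by
  unfold nbrs
  refine (Finset.card_insert_le _ _).trans ?_
  refine Nat.succ_le_succ ((Finset.card_insert_le _ _).trans ?_)
  refine Nat.succ_le_succ ((Finset.card_insert_le _ _).trans ?_)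
  simp

/-- the energy is nonnegative -/
theorem energy_nonneg (D : Finset (ℤ × ℤ)) (w : ℤ × ℤ → ℝ) (hw : ∀ z, z ∉ D → w z = 0) :
    0 ≤ ∑ x ∈ D, w x * (w x - (1 / 4) * ∑ z ∈ nbrs x, w z) := by
  have h1 : ∑ x ∈ D, w x * ((1 / 4) * ∑ z ∈ nbrs x, w z) ≤
      ∑ x ∈ D, ∑ z ∈ D, if z ∈ nbrs x then (1 / 8) * (w x ^ 2 + w z ^ 2) else 0 := by
    rw [adj_expand D w w hw]
    refine Finset.sum_le_sum fun x _ => Finset.sum_le_sum fun z _ => ?_
    split_ifs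
    · nlinarith [sq_nonneg (w x - w z)]
    · exact le_rfl
  have h2 : ∑ x ∈ D, ∑ z ∈ D, (if z ∈ nbrs x then (1 / 8) * (w x ^ 2 + w z ^ 2) else 0) =
      2 * ∑ x ∈ D, ∑ z ∈ D, (if z ∈ nbrs x then (1 / 8) * w x ^ 2 else 0) := by
    have h3 : ∑ x ∈ D, ∑ z ∈ D, (if z ∈ nbrs x then (1 / 8) * w z ^ 2 else 0) =
        ∑ x ∈ D, ∑ z ∈ D, (if z ∈ nbrs x then (1 / 8) * w x ^ 2 else 0) := by
      rw [Finset.sum_comm]
      refine Finset.sum_congr rfl fun x _ => ?_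
      refine Finset.sum_congr rfl fun z _ => ?_
      by_cases hz : z ∈ nbrs x
      · rw [if_pos hz, if_pos ((mem_nbrs_comm x z).1 hz)]
      · rw [if_neg hz, if_neg (fun h => hz ((mem_nbrs_comm x z).2 h))]
    rw [two_mul]
    nth_rewrite 2 [← h3]
    rw [← Finset.sum_add_distrib]
    refine Finset.sum_congr rfl fun x _ => ?_
    rw [← Finset.sum_add_distrib]
    refine Finset.sum_congr rfl fun z _ => ?_
    split_ifs
    · ring
    · ring
  have h4 : ∀ x ∈ D, ∑ z ∈ D, (if z ∈ nbrs x then (1 / 8) * w x ^ 2 else 0) ≤ (1 / 2) * w x ^ 2 := by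
    intro x _
    rw [Finset.sum_ite_mem, Finset.sum_const, nsmul_eq_mul]
    have hc : (((D ∩ nbrs x).card : ℕ) : ℝ) ≤ 4 := by
      have : (D ∩ nbrs x).card ≤ 4 :=
        (Finset.card_le_card Finset.inter_subset_right).trans (card_nbrs_le x)
      exact_mod_cast this
    nlinarith [sq_nonneg (w x)]
  have h5 := Finset.sum_le_sum h4
  have h6 : ∑ x ∈ D, w x * (w x - (1 / 4) * ∑ z ∈ nbrs x, w z) =
      ∑ x ∈ D, w x ^ 2 - ∑ x ∈ D, w x * ((1 / 4) * ∑ z ∈ nbrs x, w z) := by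
    rw [← Finset.sum_sub_distrib]
    refine Finset.sum_congr rfl fun x _ => ?_
    ring
  rw [h6]
  rw [← Finset.mul_sum] at h5
  linarith

theorem _root_.H941.green_psd (D D' : Finset (ℤ × ℤ)) (h : D ⊆ D') (f : ℤ × ℤ → ℝ) :
    0 ≤ ∑ x ∈ D', ∑ y ∈ D', f x * (green D' x y - green D x y) * f y := by
  obtain ⟨-, hz', -, -, heq', -⟩ := green_basic D'
  obtain ⟨-, hz, -, -, heq, -⟩ := green_basic D
  set U' : ℤ × ℤ → ℝ := fun x => ∑ y ∈ D', green D' x y * f y with hU'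
  set U : ℤ × ℤ → ℝ := fun x => ∑ y ∈ D', green D x y * f y with hU
  have v' : ∀ z, z ∉ D' → U' z = 0 := by
    intro z hzz
    simp only [hU']
    refine Finset.sum_eq_zero fun y _ => ?_
    rw [hz' z y (Or.inl hzz), zero_mul]
  have v : ∀ z, z ∉ D → U z = 0 := by
    intro z hzz
    simp only [hU]
    refine Finset.sum_eq_zero fun y _ => ?_
    rw [hz z y (Or.inl hzz), zero_mul]
  have v2 : ∀ z, z ∉ D' → U z = 0 := fun z hzz => v z fun hD => hzz (h hD)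
  have hpois : ∀ (G : ℤ × ℤ → ℤ × ℤ → ℝ) (x : ℤ × ℤ), x ∈ D' →
      (∀ y, G x y = (if x = y then 1 else 0) + (1 / 4) * ∑ z ∈ nbrs x, G z y) →
      (∑ y ∈ D', G x y * f y) - (1 / 4) * ∑ z ∈ nbrs x, ∑ y ∈ D', G z y * f y = f x := by
    intro G x hx hG
    have e1 : ∑ z ∈ nbrs x, ∑ y ∈ D', G z y * f y = ∑ y ∈ D', (∑ z ∈ nbrs x, G z y) * f y := by
      rw [Finset.sum_comm]
      refine Finset.sum_congr rfl fun y _ => ?_
      rw [Finset.sum_mul]
    have e2 : ∑ y ∈ D', G x y * f y = f x + (1 / 4) * ∑ y ∈ D', (∑ z ∈ nbrs x, G z y) * f y := by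
      have e3 : ∀ y ∈ D', G x y * f y =
          (if x = y then f y else 0) + (1 / 4) * ((∑ z ∈ nbrs x, G z y) * f y) := by
        intro y _
        rw [hG y]
        split_ifs
        · ring
        · ring
      rw [Finset.sum_congr rfl e3, Finset.sum_add_distrib, Finset.sum_ite_eq, if_pos hx,
        Finset.mul_sum]
    rw [e1, e2]
    ring
  have p' : ∀ x ∈ D', U' x - (1 / 4) * ∑ z ∈ nbrs x, U' z = f x := fun x hx =>
    hpois (green D') x hx (fun y => heq' x hx y)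
  have p : ∀ x ∈ D, U x - (1 / 4) * ∑ z ∈ nbrs x, U z = f x := fun x hx =>
    hpois (green D) x (h hx) (fun y => heq x hx y)
  have hE := energy_nonneg D' (fun x => U' x - U x) (by
    intro z hzz
    simp only [v' z hzz, v2 z hzz, sub_zero])
  have hsym := adj_symm D' U' U v' v2
  -- `∑ U f` through `E(U, U)`
  have f1 : ∑ x ∈ D', U x * (U x - (1 / 4) * ∑ z ∈ nbrs x, U z) = ∑ x ∈ D', U x * f x := by
    refine Finset.sum_congr rfl fun x _ => ?_
    by_cases hxD : x ∈ D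
    · rw [p x hxD]
    · rw [v x hxD, zero_mul, zero_mul]
  have f2 : ∑ x ∈ D', U x * (U' x - (1 / 4) * ∑ z ∈ nbrs x, U' z) = ∑ x ∈ D', U x * f x := by
    refine Finset.sum_congr rfl fun x hx => ?_
    rw [p' x hx]
  have f3 : ∑ x ∈ D', U' x * (U' x - (1 / 4) * ∑ z ∈ nbrs x, U' z) = ∑ x ∈ D', U' x * f x := by
    refine Finset.sum_congr rfl fun x hx => ?_
    rw [p' x hx]
  have f4 : ∑ x ∈ D', U' x * (U x - (1 / 4) * ∑ z ∈ nbrs x, U z) =
      ∑ x ∈ D', U x * (U' x - (1 / 4) * ∑ z ∈ nbrs x, U' z) := by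
    have g1 : ∀ a b : ℤ × ℤ → ℝ, ∑ x ∈ D', a x * (b x - (1 / 4) * ∑ z ∈ nbrs x, b z) =
        ∑ x ∈ D', a x * b x - ∑ x ∈ D', a x * ((1 / 4) * ∑ z ∈ nbrs x, b z) := by
      intro a b
      rw [← Finset.sum_sub_distrib]
      refine Finset.sum_congr rfl fun x _ => ?_
      ring
    rw [g1 U' U, g1 U U', hsym]
    congr 1
    refine Finset.sum_congr rfl fun x _ => ?_
    ring
  have hexp : ∑ x ∈ D', (U' x - U x) * ((U' x - U x) - (1 / 4) * ∑ z ∈ nbrs x, (U' z - U z)) =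
      ∑ x ∈ D', U' x * (U' x - (1 / 4) * ∑ z ∈ nbrs x, U' z) -
      ∑ x ∈ D', U' x * (U x - (1 / 4) * ∑ z ∈ nbrs x, U z) -
      ∑ x ∈ D', U x * (U' x - (1 / 4) * ∑ z ∈ nbrs x, U' z) +
      ∑ x ∈ D', U x * (U x - (1 / 4) * ∑ z ∈ nbrs x, U z) := by
    rw [← Finset.sum_sub_distrib, ← Finset.sum_sub_distrib, ← Finset.sum_add_distrib]
    refine Finset.sum_congr rfl fun x _ => ?_
    rw [Finset.sum_sub_distrib]
    ring
  rw [hexp, f4, f3, f2, f1] at hE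
  have hgoal : ∑ x ∈ D', ∑ y ∈ D', f x * (green D' x y - green D x y) * f y =
      ∑ x ∈ D', U' x * f x - ∑ x ∈ D', U x * f x := by
    rw [← Finset.sum_sub_distrib]
    refine Finset.sum_congr rfl fun x _ => ?_
    simp only [hU', hU]
    rw [Finset.sum_mul, Finset.sum_mul, ← Finset.sum_sub_distrib]
    refine Finset.sum_congr rfl fun y _ => ?_
    ring
  rw [hgoal]
  linarith

end H941.A4
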