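import Pool.Agent.KS6_63.GFF.Defs2
import Pool.Agent.KS6_63.GFF.A2

open MeasureTheory ProbabilityTheory

namespace H941.A5

theorem _root_.H941.green_log (D : Finset (ℤ × ℤ)) (N : ℕ) (hN : 1 ≤ N)
    (hD : ∀ x ∈ D, ∀ y ∈ D, |x.1 - y.1| < (N : ℤ) ∧ |x.2 - y.2| < (N : ℤ)) (v : ℤ × ℤ) :
    green D v v ≤ Real.log (1 + 2 * (N : ℝ) ^ 2) / Real.log 2 := by
  classical
  have hlog2 : 0 < Real.log 2 := Real.log_pos (by norm_num)
  have hL0 : 0 ≤ Real.log (1 + 2 * (N : ℝ) ^ 2) :=
    Real.log_nonneg (by have : (0 : ℝ) ≤ 2 * (N : ℝ) ^ 2 := by positivity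
                        linarith)
  by_cases hv : v ∈ D
  swap
  · have h0 : ∀ n, walkProb D n v v = 0 := by
      intro n
      cases n with
      | zero => simp [walkProb, hv]
      | succ n => simp [walkProb, hv]
    have : green D v v = 0 := by
      unfold green
      simp [h0]
    rw [this]
    positivity
  · set L : ℝ := Real.log (1 + 2 * (N : ℝ) ^ 2) with hL
    let w : ℤ × ℤ → ℝ := fun z => 1 + ((z.1 : ℝ) - v.1) ^ 2 + ((z.2 : ℝ) - v.2) ^ 2
    have hw1 : ∀ z, 1 ≤ w z := by
      intro z
      simp only [w]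
      nlinarith [sq_nonneg ((z.1 : ℝ) - v.1), sq_nonneg ((z.2 : ℝ) - v.2)]
    let g : ℤ × ℤ → ℝ := fun z => max 0 ((L - Real.log (w z)) / Real.log 2)
    let f : ℤ × ℤ → ℝ := fun z => if z = v then 1 else 0
    -- value of g at points at distance at most N from v
    have hg : ∀ z : ℤ × ℤ, |z.1 - v.1| ≤ (N : ℤ) → |z.2 - v.2| ≤ (N : ℤ) →
        g z = (L - Real.log (w z)) / Real.log 2 := by
      intro z h1 h2
      simp only [g]
      apply max_eq_right
      apply div_nonneg _ hlog2.le
      have h1' : |(z.1 : ℝ) - v.1| ≤ (N : ℝ) := by exact_mod_cast h1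
      have h2' : |(z.2 : ℝ) - v.2| ≤ (N : ℝ) := by exact_mod_cast h2
      have h1s : ((z.1 : ℝ) - v.1) ^ 2 ≤ (N : ℝ) ^ 2 := by
        rw [← sq_abs]; exact pow_le_pow_left₀ (abs_nonneg _) h1' 2
      have h2s : ((z.2 : ℝ) - v.2) ^ 2 ≤ (N : ℝ) ^ 2 := by
        rw [← sq_abs]; exact pow_le_pow_left₀ (abs_nonneg _) h2' 2
      have : Real.log (w z) ≤ L := by
        apply Real.log_le_log (by linarith [hw1 z])
        simp only [w]; linarith
      linarith
    have hsum : ∀ x : ℤ × ℤ, ∀ F : ℤ × ℤ → ℝ, ∑ z ∈ nbrs x, F z =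
        F (x.1 + 1, x.2) + F (x.1 - 1, x.2) + F (x.1, x.2 + 1) + F (x.1, x.2 - 1) := by
      intro x F
      unfold nbrs
      rw [Finset.sum_insert, Finset.sum_insert, Finset.sum_insert, Finset.sum_singleton]
      · ring
      · simp only [Finset.mem_singleton, Prod.mk.injEq, not_and]; intro _; omega
      · simp only [Finset.mem_insert, Finset.mem_singleton, Prod.mk.injEq, not_or, not_and]
        constructor <;> intro h <;> omega
      · simp only [Finset.mem_insert, Finset.mem_singleton, Prod.mk.injEq, not_or, not_and]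
        refine ⟨?_, ?_, ?_⟩ <;> intro h <;> omega
    have key : ∀ x ∈ D, f x + (1 / 4) * ∑ z ∈ nbrs x, g z ≤ g x := by
      intro x hx
      obtain ⟨hx1, hx2⟩ := hD x hx v hv
      rw [hsum]
      have e1 := hg (x.1 + 1, x.2) (by rw [abs_le]; rw [abs_lt] at hx1; constructor <;> simp only <;> omega)
        (by simp only; omega)
      have e2 := hg (x.1 - 1, x.2) (by rw [abs_le]; rw [abs_lt] at hx1; constructor <;> simp only <;> omega)
        (by simp only; omega)
      have e3 := hg (x.1, x.2 + 1) (by simp only; omega)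
        (by rw [abs_le]; rw [abs_lt] at hx2; constructor <;> simp only <;> omega)
      have e4 := hg (x.1, x.2 - 1) (by simp only; omega)
        (by rw [abs_le]; rw [abs_lt] at hx2; constructor <;> simp only <;> omega)
      have e0 := hg x (by omega) (by omega)
      rw [e1, e2, e3, e4, e0]
      by_cases hxv : x = v
      · subst hxv
        have w1 : w (x.1 + 1, x.2) = 2 := by simp only [w]; push_cast; ring
        have w2 : w (x.1 - 1, x.2) = 2 := by simp only [w]; push_cast; ring
        have w3 : w (x.1, x.2 + 1) = 2 := by simp only [w]; push_cast; ring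
        have w4 : w (x.1, x.2 - 1) = 2 := by simp only [w]; push_cast; ring
        have w0 : w x = 1 := by simp only [w]; ring
        rw [w1, w2, w3, w4, w0]
        simp only [f, if_true, Real.log_one, sub_zero]
        have : (L - Real.log 2) / Real.log 2 = L / Real.log 2 - 1 := by
          rw [sub_div, div_self hlog2.ne']
        rw [this]
        apply le_of_eq
        ring
      · simp only [f, hxv, if_false, zero_add]
        set a : ℝ := (x.1 : ℝ) - v.1 with ha
        set b : ℝ := (x.2 : ℝ) - v.2 with hb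
        have w1 : w (x.1 + 1, x.2) = 1 + (a + 1) ^ 2 + b ^ 2 := by
          simp only [w, ha, hb]; push_cast; ring
        have w2 : w (x.1 - 1, x.2) = 1 + (a - 1) ^ 2 + b ^ 2 := by
          simp only [w, ha, hb]; push_cast; ring
        have w3 : w (x.1, x.2 + 1) = 1 + a ^ 2 + (b + 1) ^ 2 := by
          simp only [w, ha, hb]; push_cast; ring
        have w4 : w (x.1, x.2 - 1) = 1 + a ^ 2 + (b - 1) ^ 2 := by
          simp only [w, ha, hb]; push_cast; ring
        have w0 : w x = 1 + a ^ 2 + b ^ 2 := by simp only [w, ha, hb]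
        rw [w1, w2, w3, w4, w0]
        have p0 : (0 : ℝ) < 1 + a ^ 2 + b ^ 2 := by positivity
        have p1 : (0 : ℝ) < 1 + (a + 1) ^ 2 + b ^ 2 := by positivity
        have p2 : (0 : ℝ) < 1 + (a - 1) ^ 2 + b ^ 2 := by positivity
        have p3 : (0 : ℝ) < 1 + a ^ 2 + (b + 1) ^ 2 := by positivity
        have p4 : (0 : ℝ) < 1 + a ^ 2 + (b - 1) ^ 2 := by positivity
        have hprod : (1 + a ^ 2 + b ^ 2) ^ 4 ≤ (1 + (a + 1) ^ 2 + b ^ 2) * (1 + (a - 1) ^ 2 + b ^ 2) *
            (1 + a ^ 2 + (b + 1) ^ 2) * (1 + a ^ 2 + (b - 1) ^ 2) := by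
          have : (1 + (a + 1) ^ 2 + b ^ 2) * (1 + (a - 1) ^ 2 + b ^ 2) *
            (1 + a ^ 2 + (b + 1) ^ 2) * (1 + a ^ 2 + (b - 1) ^ 2) =
              (1 + a ^ 2 + b ^ 2) ^ 4 + 2 * (1 + a ^ 2 + b ^ 2) ^ 2 + 8 * (1 + a ^ 2 + b ^ 2) + 5
                + 16 * a ^ 2 * b ^ 2 := by ring
          rw [this]
          have : (0 : ℝ) ≤ 2 * (1 + a ^ 2 + b ^ 2) ^ 2 + 8 * (1 + a ^ 2 + b ^ 2) + 5
                + 16 * a ^ 2 * b ^ 2 := by positivity
          linarith
        have hl := Real.log_le_log (by positivity) hprod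
        rw [Real.log_pow, Real.log_mul (by positivity) p4.ne', Real.log_mul (by positivity) p3.ne',
          Real.log_mul p1.ne' p2.ne'] at hl
        push_cast at hl
        rw [← add_div, ← add_div, ← add_div, ← mul_div_assoc]
        apply div_le_div_of_nonneg_right _ hlog2.le
        linarith
    have h := (green_le D).2 f g (by intro z _; simp only [f]; split_ifs <;> norm_num)
      (by intro z; simp only [g]; exact le_max_left _ _) key v
    have hs : ∑ u ∈ D, green D v u * f u = green D v v := by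
      simp only [f, mul_ite, mul_one, mul_zero]
      rw [Finset.sum_ite_eq']
      simp [hv]
    rw [hs] at h
    have hgv : g v = L / Real.log 2 := by
      rw [hg v (by simp) (by simp)]
      have w0 : w v = 1 := by simp only [w]; ring
      rw [w0, Real.log_one, sub_zero]
    rw [hgv] at h
    exact h

end H941.A5
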