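import Pool.Agent.KS6_63.GFF.Defs2

open MeasureTheory ProbabilityTheory

namespace H941.G1

theorem _root_.H941.law_sum {ι : Type*} [Fintype ι] [DecidableEq ι] {n : ℕ} (Γ : Fin n → Matrix ι ι ℝ)
    (hΓ : ∀ j, (Γ j).PosSemidef) :
    (Measure.pi (fun j => multivariateGaussian (0 : EuclideanSpace ℝ ι) (Γ j))).map
        (fun x => ∑ j, x j) =
      multivariateGaussian (0 : EuclideanSpace ℝ ι) (∑ j, Γ j) := by
  have : IsProbabilityMeasure ((Measure.pi (fun j => multivariateGaussian (0 : EuclideanSpace ℝ ι) (Γ j))).map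
        (fun x => ∑ j, x j)) := Measure.isProbabilityMeasure_map (by fun_prop)
  apply Measure.ext_of_charFun
  funext t
  rw [charFun_map_sum_pi_eq_prod, Finset.prod_apply]
  have hS : (∑ j, Γ j).PosSemidef := Matrix.posSemidef_sum _ (fun j _ => hΓ j)
  rw [charFun_multivariateGaussian hS]
  rw [Finset.prod_congr rfl (fun j _ => charFun_multivariateGaussian (hΓ j) t)]
  rw [← Complex.exp_sum]
  congr 1
  simp [Matrix.sum_mulVec, dotProduct_sum, Finset.sum_div]

end H941.G1
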