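import Pool.Agent.KS6_63.GFF.Defs2

open MeasureTheory ProbabilityTheory

namespace H941.K1

theorem child_facts_aux (δ : ℝ) (b : Bool) :
    ‖(1 / 2 + bsign b * δ * Complex.I : ℂ)‖ = Real.sqrt (1 + 4 * δ ^ 2) / 2 ∧
    ‖(1 / 2 - bsign b * δ * Complex.I : ℂ)‖ = Real.sqrt (1 + 4 * δ ^ 2) / 2 := by
  have h4 : Real.sqrt (1 + 4 * δ ^ 2) / 2 = Real.sqrt ((1 + 4 * δ ^ 2) / 4) := by
    rw [Real.sqrt_div' _ (by norm_num : (0 : ℝ) ≤ 4)]
    congr 1
    rw [show (4 : ℝ) = 2 ^ 2 by norm_num]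
    exact (Real.sqrt_sq (by norm_num)).symm
  have e1 : (1 / 2 + bsign b * δ * Complex.I : ℂ) =
      ⟨1 / 2, (if b then 1 else -1) * δ⟩ := by
    cases b <;> apply Complex.ext <;> simp [bsign]
  have e2 : (1 / 2 - bsign b * δ * Complex.I : ℂ) =
      ⟨1 / 2, -((if b then 1 else -1) * δ)⟩ := by
    cases b <;> apply Complex.ext <;> simp [bsign]
  rw [e1, e2, Complex.norm_def, Complex.norm_def, Complex.normSq_mk, Complex.normSq_mk, h4]
  constructor
  · congr 1
    cases b <;> simp <;> ring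
  · congr 1
    cases b <;> simp <;> ring

theorem _root_.H941.child_facts (δ : ℝ) (hδ : 0 ≤ δ) (hδ' : δ ≤ 1 / 8) (b : Bool) (s : ℂ × ℂ) :
    (∀ k < 64, ‖(child δ b k s).2‖ = ‖s.2‖ * Real.sqrt (1 + 4 * δ ^ 2) / 64) ∧
    (∀ k < 64, ‖(child δ b k s).2‖ ≤ ‖s.2‖ / 60) ∧
    (child δ b 0 s).1 = s.1 ∧
    (∀ k < 63, (child δ b (k + 1) s).1 = (child δ b k s).1 + (child δ b k s).2) ∧
    (child δ b 63 s).1 + (child δ b 63 s).2 = s.1 + s.2 ∧
    (∀ k < 64, ∀ t' : ℝ, 0 ≤ t' → t' ≤ 1 → ∃ τ t : ℝ, 0 ≤ τ ∧ τ ≤ 1 ∧ 0 ≤ t ∧ t ≤ 1 ∧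
      (24 ≤ k → k < 40 → 3 / 4 ≤ t) ∧
      (child δ b k s).1 + (t' : ℂ) * (child δ b k s).2 =
        s.1 + (τ : ℂ) * s.2 + bsign b * δ * Complex.I * (t : ℂ) * s.2) := by
  obtain ⟨n1, n2⟩ := child_facts_aux δ b
  have h32 : ‖(1 / 32 : ℂ)‖ = 1 / 32 := by
    rw [show (1 / 32 : ℂ) = ((1 / 32 : ℝ) : ℂ) by push_cast; ring, Complex.norm_real]
    norm_num
  have hn : ∀ k < 64, ‖(child δ b k s).2‖ = ‖s.2‖ * Real.sqrt (1 + 4 * δ ^ 2) / 64 := by
    intro k _
    unfold child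
    split_ifs with h
    · simp only [norm_mul, h32, n1]
      ring
    · simp only [norm_mul, h32, n2]
      ring
  refine ⟨hn, ?_, ?_, ?_, ?_, ?_⟩
  · intro k hk
    rw [hn k hk]
    have h1 : Real.sqrt (1 + 4 * δ ^ 2) ≤ 16 / 15 := by
      rw [Real.sqrt_le_left (by norm_num)]
      nlinarith
    have h2 := norm_nonneg s.2
    nlinarith
  · simp [child]
  · intro k hk
    unfold child
    by_cases h1 : k + 1 < 32
    · rw [if_pos h1, if_pos (by omega)]
      push_cast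
      ring
    · by_cases h2 : k < 32
      · have h3 : k = 31 := by omega
        subst h3
        norm_num
        ring
      · rw [if_neg h1, if_neg h2]
        push_cast
        ring
  · unfold child
    rw [if_neg (by norm_num)]
    push_cast
    ring
  · intro k hk t' ht0 ht1
    by_cases h : k < 32
    · have hk' : (k : ℝ) ≤ 31 := by exact_mod_cast (by omega : k ≤ 31)
      have hk0 : (0 : ℝ) ≤ k := Nat.cast_nonneg k
      refine ⟨((k : ℝ) + t') / 32 / 2, ((k : ℝ) + t') / 32, by positivity, ?_, by positivity, ?_,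
        ?_, ?_⟩
      · linarith
      · linarith
      · intro h1 _
        have h2 : (24 : ℝ) ≤ k := by exact_mod_cast h1
        linarith
      · unfold child
        rw [if_pos h]
        push_cast
        ring
    · have h' : 32 ≤ k := by omega
      have hk' : (k : ℝ) ≤ 63 := by exact_mod_cast (by omega : k ≤ 63)
      have hk0 : (32 : ℝ) ≤ k := by exact_mod_cast h'
      refine ⟨1 / 2 + ((k : ℝ) - 32 + t') / 32 / 2, 1 - ((k : ℝ) - 32 + t') / 32, ?_, ?_, ?_, ?_,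
        ?_, ?_⟩
      · linarith
      · linarith
      · linarith
      · linarith
      · intro _ h1
        have h2 : (k : ℝ) ≤ 39 := by exact_mod_cast (by omega : k ≤ 39)
        linarith
      · unfold child
        rw [if_neg h]
        push_cast
        ring

end H941.K1
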