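import Pool.Agent.KS6_63.GFF.Defs2

open MeasureTheory ProbabilityTheory

namespace H941.G2

open scoped RealInnerProductSpace

theorem _root_.H941.law_of_cov {ι : Type*} [Fintype ι] [DecidableEq ι] {Ω : Type*} [MeasurableSpace Ω]
    (P : Measure Ω) (X : ι → Ω → ℝ) (hX : IsGaussianProcess X P) (h0 : ∀ i, ∫ ω, X i ω ∂P = 0)
    (S : Matrix ι ι ℝ) (hS : S.PosSemidef) (hcov : ∀ i j, cov[X i, X j; P] = S i j) :
    AEMeasurable (fun ω => (WithLp.toLp 2 (fun i => X i ω) : EuclideanSpace ℝ ι)) P ∧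
    P.map (fun ω => (WithLp.toLp 2 (fun i => X i ω) : EuclideanSpace ℝ ι)) =
      multivariateGaussian (0 : EuclideanSpace ℝ ι) S := by
  have h1 : HasGaussianLaw (fun ω => (fun i => X i ω)) P := by
    have h2 := (hX.hasGaussianLaw Finset.univ).map
      (ContinuousLinearMap.pi (R := ℝ) (fun i : ι =>
        ContinuousLinearMap.proj (R := ℝ) (φ := fun _ : (Finset.univ : Finset ι) => ℝ)
          ⟨i, Finset.mem_univ i⟩))
    exact h2
  have h3 : HasGaussianLaw (fun ω => (WithLp.toLp 2 (fun i => X i ω) : EuclideanSpace ℝ ι)) P :=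
    HasGaussianLaw.toLp_pi 2 h1
  have hm : AEMeasurable (fun ω => (WithLp.toLp 2 (fun i => X i ω) : EuclideanSpace ℝ ι)) P :=
    h3.aemeasurable
  refine ⟨hm, ?_⟩
  have := h3.isGaussian_map
  apply IsGaussian.ext
  · simp only [id_eq, integral_id_multivariateGaussian]
    rw [integral_map hm (by fun_prop)]
    ext i
    have h4 := (EuclideanSpace.proj i : EuclideanSpace ℝ ι →L[ℝ] ℝ).integral_comp_comm
      h3.integrable
    have h5 : (∫ ω, (WithLp.toLp 2 (fun i => X i ω) : EuclideanSpace ℝ ι) ∂P) i = ∫ ω, X i ω ∂P := by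
      exact h4.symm
    rw [h5, h0 i]
    rfl
  · rw [← ContinuousLinearMap.toBilinForm_inj]
    refine LinearMap.BilinForm.ext_basis (EuclideanSpace.basisFun ι ℝ).toBasis fun i j ↦ ?_
    rw [ContinuousLinearMap.toBilinForm_apply, ContinuousLinearMap.toBilinForm_apply,
      covarianceBilin_apply_eq_cov, covariance_map]
    · have (i : ι) : (fun u ↦ ⟪(EuclideanSpace.basisFun ι ℝ).toBasis i, u⟫) ∘
          (fun ω => (WithLp.toLp 2 (fun i => X i ω) : EuclideanSpace ℝ ι)) = X i := by
        ext; simp [PiLp.inner_apply]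
      simp_rw [this, hcov, covarianceBilin_multivariateGaussian hS]
      simp
    any_goals exact Measurable.aestronglyMeasurable (by fun_prop)
    · exact hm
    · exact IsGaussian.memLp_two_id

end H941.G2
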