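import Pool.Agent.KS6_63.GFF.Defs2

open MeasureTheory ProbabilityTheory

namespace H941.G3


lemma half_exp_map (σ : ℝ) :
    (gaussianReal 0 1).map (fun x => σ * x) = gaussianReal 0 (σ ^ 2).toNNReal := by
  rw [gaussianReal_map_const_mul]
  congr 1
  · simp
  · ext; simp [sq_nonneg]

lemma half_exp_half {v : NNReal} (hv : v ≠ 0) : (gaussianReal 0 v).real (Set.Iic 0) = 1 / 2 := by
  have hna : NullSingletonClass (gaussianReal 0 v) := nullSingletonClass_gaussianReal hv
  have h1 : (gaussianReal 0 v).real (Set.Iic 0) = (gaussianReal 0 v).real (Set.Ioi 0) := by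
    have h := gaussianReal_map_neg (μ := 0) (v := v)
    rw [neg_zero] at h
    have h2 : (gaussianReal 0 v).real (Set.Iic 0) =
        ((gaussianReal 0 v).map (fun x => -x)).real (Set.Iic 0) := by rw [h]
    rw [h2, map_measureReal_apply (by fun_prop) measurableSet_Iic]
    have h3 : (fun x : ℝ => -x) ⁻¹' Set.Iic 0 = Set.Ici 0 := by
      ext x; simp
    rw [h3]
    exact measureReal_congr Ioi_ae_eq_Ici.symm
  have h2 : (gaussianReal 0 v).real (Set.Iic 0) + (gaussianReal 0 v).real (Set.Ioi 0) = 1 := by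
    have h := measureReal_add_measureReal_compl (μ := gaussianReal 0 v) (s := Set.Iic (0:ℝ))
      measurableSet_Iic
    rw [Set.compl_Iic] at h
    simpa using h
  linarith

theorem _root_.H941.half_exp : ∃ c0 : ℝ, 0 < c0 ∧ c0 ≤ 1 ∧ ∀ (a σ : ℝ), 0 ≤ a → 0 < σ →
    ∫ x, Set.indicator {x : ℝ | x ≤ 0} (fun x => Real.exp (a * x)) x
        ∂(gaussianReal 0 (σ ^ 2).toNNReal) ≤
      (1 / 2) * Real.exp (-(c0 * min 1 (a * σ))) := by
  set q : ℝ := (gaussianReal 0 1).real (Set.Iic (-1)) with hq
  have hqpos : 0 < q := by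
    rw [hq, measureReal_def]
    apply ENNReal.toReal_pos
    · intro h0
      have h1 := gaussianReal_absolutelyContinuous' 0 (v := 1) one_ne_zero h0
      rw [Real.volume_Iic] at h1
      exact ENNReal.top_ne_zero h1
    · exact measure_ne_top _ _
  have hqle : q ≤ 1 / 2 := by
    rw [← half_exp_half (v := 1) one_ne_zero]
    exact measureReal_mono (Set.Iic_subset_Iic.2 (by norm_num))
  have he1 : Real.exp (-1) < 1 := by
    rw [Real.exp_lt_one_iff]; norm_num
  have he0 : 0 < Real.exp (-1) := Real.exp_pos _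
  refine ⟨2 * q * (1 - Real.exp (-1)), by nlinarith [mul_pos hqpos (sub_pos.2 he1)], ?_, ?_⟩
  · nlinarith [mul_pos hqpos (sub_pos.2 he1)]
  intro a σ ha hσ
  have hv : (σ ^ 2).toNNReal ≠ 0 := by
    have h : 0 < σ ^ 2 := by positivity
    exact (Real.toNNReal_pos.2 h).ne'
  set μ := gaussianReal 0 (σ ^ 2).toNNReal with hμ
  set m : ℝ := min 1 (a * σ) with hm
  have hm0 : 0 ≤ m := le_min zero_le_one (by positivity)
  have hm1 : m ≤ 1 := min_le_left _ _
  have hma : m ≤ a * σ := min_le_right _ _
  have hμq : μ.real (Set.Iic (-σ)) = q := by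
    rw [hμ, ← half_exp_map σ, map_measureReal_apply (by fun_prop) measurableSet_Iic, hq]
    congr 1
    ext x
    simp only [Set.mem_preimage, Set.mem_Iic]
    constructor
    · intro h
      by_contra hx
      push Not at hx
      nlinarith
    · intro h
      nlinarith
  have hμh : μ.real (Set.Iic 0) = 1 / 2 := half_exp_half hv
  -- pointwise bound
  have hpt : ∀ x : ℝ, Set.indicator {x : ℝ | x ≤ 0} (fun x => Real.exp (a * x)) x ≤
      Set.indicator (Set.Iic 0) (fun _ => (1:ℝ)) x -
        (1 - Real.exp (-m)) * Set.indicator (Set.Iic (-σ)) (fun _ => (1:ℝ)) x := by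
    intro x
    by_cases hx0 : x ≤ 0
    · rw [Set.indicator_of_mem (show x ∈ {x : ℝ | x ≤ 0} from hx0),
        Set.indicator_of_mem (show x ∈ Set.Iic (0:ℝ) from hx0)]
      by_cases hxs : x ≤ -σ
      · rw [Set.indicator_of_mem (show x ∈ Set.Iic (-σ) from hxs)]
        have : Real.exp (a * x) ≤ Real.exp (-m) := by
          apply Real.exp_le_exp.2
          nlinarith
        linarith
      · rw [Set.indicator_of_notMem (show x ∉ Set.Iic (-σ) from hxs)]
        have : Real.exp (a * x) ≤ 1 := by
          rw [Real.exp_le_one_iff]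
          nlinarith
        linarith
    · rw [Set.indicator_of_notMem (show x ∉ {x : ℝ | x ≤ 0} from hx0),
        Set.indicator_of_notMem (show x ∉ Set.Iic (0:ℝ) from hx0),
        Set.indicator_of_notMem (show x ∉ Set.Iic (-σ) from ?_)]
      · simp
      · simp only [Set.mem_Iic]
        intro h
        apply hx0
        linarith
  have hi1 : Integrable (fun x => Set.indicator (Set.Iic (0:ℝ)) (fun _ => (1:ℝ)) x) μ :=
    (integrable_const (1:ℝ)).indicator measurableSet_Iic
  have hi2 : Integrable (fun x => Set.indicator (Set.Iic (-σ)) (fun _ => (1:ℝ)) x) μ :=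
    (integrable_const (1:ℝ)).indicator measurableSet_Iic
  have hi3 : Integrable (fun x => (1 - Real.exp (-m)) * Set.indicator (Set.Iic (-σ)) (fun _ => (1:ℝ)) x) μ :=
    hi2.const_mul _
  have hint : ∫ x, Set.indicator {x : ℝ | x ≤ 0} (fun x => Real.exp (a * x)) x ∂μ ≤
      1 / 2 - (1 - Real.exp (-m)) * q := by
    calc ∫ x, Set.indicator {x : ℝ | x ≤ 0} (fun x => Real.exp (a * x)) x ∂μ
        ≤ ∫ x, (Set.indicator (Set.Iic 0) (fun _ => (1:ℝ)) x -
        (1 - Real.exp (-m)) * Set.indicator (Set.Iic (-σ)) (fun _ => (1:ℝ)) x) ∂μ := by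
          apply integral_mono_of_nonneg
          · exact Filter.Eventually.of_forall (fun x => Set.indicator_nonneg (fun y _ => (Real.exp_pos _).le) x)
          · exact hi1.sub hi3
          · exact Filter.Eventually.of_forall hpt
      _ = 1 / 2 - (1 - Real.exp (-m)) * q := by
          rw [integral_sub hi1 hi3, integral_const_mul, integral_indicator_const _ measurableSet_Iic,
            integral_indicator_const _ measurableSet_Iic, hμh, hμq]
          simp
  -- concavity
  have hconc : (1 - Real.exp (-1)) * m ≤ 1 - Real.exp (-m) := by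
    have h := convexOn_exp.2 (Set.mem_univ (0:ℝ)) (Set.mem_univ (-1:ℝ)) (show 0 ≤ 1 - m by linarith)
      hm0 (by ring)
    simp only [smul_eq_mul, mul_zero, zero_add, mul_neg, mul_one, Real.exp_zero] at h
    nlinarith
  have hfin : 1 - 2 * q * (1 - Real.exp (-1)) * m ≤ Real.exp (-(2 * q * (1 - Real.exp (-1)) * m)) := by
    have := Real.add_one_le_exp (-(2 * q * (1 - Real.exp (-1)) * m))
    linarith
  calc ∫ x, Set.indicator {x : ℝ | x ≤ 0} (fun x => Real.exp (a * x)) x ∂μ
      ≤ 1 / 2 - (1 - Real.exp (-m)) * q := hint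
    _ ≤ 1 / 2 - ((1 - Real.exp (-1)) * m) * q := by nlinarith
    _ = (1 / 2) * (1 - 2 * q * (1 - Real.exp (-1)) * m) := by ring
    _ ≤ _ := by linarith

end H941.G3
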