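import Pool.Agent.KS6_63.GFF.Defs2
import Pool.Agent.KS6_63.GFF.K1
import Pool.Agent.KS6_63.GFF.K2

open MeasureTheory ProbabilityTheory

namespace H941.K3

/-- concatenation of a chain of walks -/
theorem chain_walk (c : ℕ → ℂ × ℂ) (L : ℕ → List (ℤ × ℤ)) (n : ℕ)
    (hc : ∀ k, k < n → (c (k + 1)).1 = (c k).1 + (c k).2)
    (hw : ∀ k, k ≤ n → ∃ p : grid.Walk (rd (c k).1) (rd ((c k).1 + (c k).2)),
      p.support.tail.Sublist (L k)) :
    ∃ p : grid.Walk (rd (c 0).1) (rd ((c n).1 + (c n).2)),
      p.support.tail.Sublist ((List.range (n + 1)).flatMap L) := by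
  induction n with
  | zero =>
    obtain ⟨p, hp⟩ := hw 0 le_rfl
    exact ⟨p, by simpa using hp⟩
  | succ n ih =>
    obtain ⟨p, hp⟩ := ih (fun k hk => hc k (by omega)) (fun k hk => hw k (by omega))
    obtain ⟨r, hr⟩ := hw (n + 1) le_rfl
    have h1 : rd ((c n).1 + (c n).2) = rd (c (n + 1)).1 := by rw [hc n (by omega)]
    refine ⟨(p.copy rfl h1).append r, ?_⟩
    rw [SimpleGraph.Walk.support_append, SimpleGraph.Walk.support_copy,
      List.tail_append_of_ne_nil (SimpleGraph.Walk.support_ne_nil _),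
      List.range_succ, List.flatMap_append]
    exact List.Sublist.append hp (by simpa using hr)

theorem _root_.H941.exists_walk (δ : ℕ → ℝ) (hδ : ∀ j, 0 ≤ δ j) (hδ' : ∀ j, δ j ≤ 1 / 8) (q : ℕ) (hq : 1 ≤ q)
    (σ : ℕ → ℂ × ℂ → Bool) (m j : ℕ) (s : ℂ × ℂ)
    (hs : ‖s.2‖ * ∏ i ∈ Finset.range m, (Real.sqrt (1 + 4 * δ (j + i) ^ 2) / 64) ≤ q) :
    (∃ p : grid.Walk (rd s.1) (rd (s.1 + s.2)), p.support.tail.Sublist (leaves δ q σ m j s)) ∧
    (leaves δ q σ m j s).length = 64 ^ m * (2 * q) := by
  induction m generalizing j s with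
  | zero =>
    have h := finalVerts_facts q hq s (by simpa using hs)
    exact ⟨h.1, by simpa [leaves] using h.2.2⟩
  | succ m ih =>
    obtain ⟨h1, -, h3, h4, h5, -⟩ := child_facts (δ j) (hδ j) (hδ' j) (σ j s) s
    have key : ∀ k, k < 64 →
        (∃ p : grid.Walk (rd (child (δ j) (σ j s) k s).1)
          (rd ((child (δ j) (σ j s) k s).1 + (child (δ j) (σ j s) k s).2)),
          p.support.tail.Sublist (leaves δ q σ m (j + 1) (child (δ j) (σ j s) k s))) ∧
        (leaves δ q σ m (j + 1) (child (δ j) (σ j s) k s)).length = 64 ^ m * (2 * q) := by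
      intro k hk
      apply ih
      rw [h1 k hk]
      rw [Finset.prod_range_succ'] at hs
      have e : ∀ i, j + 1 + i = j + (i + 1) := fun i => by omega
      simp only [e]
      calc _ = ‖s.2‖ * ((∏ i ∈ Finset.range m, (Real.sqrt (1 + 4 * δ (j + (i + 1)) ^ 2) / 64)) *
            (Real.sqrt (1 + 4 * δ j ^ 2) / 64)) := by ring
        _ ≤ q := hs
    constructor
    · have h := chain_walk (fun k => child (δ j) (σ j s) k s)
        (fun k => leaves δ q σ m (j + 1) (child (δ j) (σ j s) k s)) 63
        (fun k hk => h4 k hk) (fun k hk => (key k (by omega)).1)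
      beta_reduce at h
      rw [h3, h5] at h
      exact h
    · rw [leaves, List.length_flatMap]
      have e : (List.range 64).map (fun k => (leaves δ q σ m (j + 1)
          (child (δ j) (σ j s) k s)).length) = (List.range 64).map (fun _ => 64 ^ m * (2 * q)) := by
        apply List.map_congr_left
        intro k hk
        exact (key k (List.mem_range.1 hk)).2
      rw [e]
      simp only [List.map_const', List.length_range, List.sum_replicate, smul_eq_mul]
      ring

end H941.K3
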