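import Mathlib

/-!
Definitions for the discrete Gaussian free field on boxes of the square lattice
(problem MP_7362d9_pr).
-/

open MeasureTheory ProbabilityTheory

namespace H941

/-- The four nearest neighbours of a lattice point. -/
def nbrs (u : ℤ × ℤ) : Finset (ℤ × ℤ) :=
  {(u.1 + 1, u.2), (u.1 - 1, u.2), (u.1, u.2 + 1), (u.1, u.2 - 1)}

/-- The nearest-neighbour graph on the square lattice. -/
noncomputable def grid : SimpleGraph (ℤ × ℤ) where
  Adj u v := |u.1 - v.1| + |u.2 - v.2| = 1
  symm := by
    refine ⟨fun u v h => ?_⟩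
    rw [abs_sub_comm v.1, abs_sub_comm v.2]
    exact h
  loopless := by
    refine ⟨fun u h => ?_⟩
    simp at h

/-- The `M` by `M` box, centred at the origin if `M` is odd and at `(1/2, 1/2)` if `M` is even. -/
noncomputable def box (M : ℕ) : Finset (ℤ × ℤ) :=
  Finset.Icc (-(((M - 1) / 2 : ℕ) : ℤ)) ((M / 2 : ℕ) : ℤ) ×ˢ
    Finset.Icc (-(((M - 1) / 2 : ℕ) : ℤ)) ((M / 2 : ℕ) : ℤ)

open Classical in
/-- The inner boundary of the box: its points having a nearest neighbour outside the box. -/
noncomputable def innerBdry (M : ℕ) : Finset (ℤ × ℤ) :=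
  (box M).filter (fun v => ∃ u, grid.Adj v u ∧ u ∉ box M)

open Classical in
/-- `walkProb D n u v` is the probability that simple random walk started at `u` stays in `D`
at all times `0, …, n` and is at `v` at time `n`. -/
noncomputable def walkProb (D : Finset (ℤ × ℤ)) : ℕ → ℤ × ℤ → ℤ × ℤ → ℝ
  | 0, u, v => if u ∈ D ∧ u = v then 1 else 0
  | n + 1, u, v => if u ∈ D then (1 / 4) * ∑ z ∈ nbrs u, walkProb D n z v else 0

/-- The Green function of simple random walk killed on leaving `D`: the expected number of
visits to `v` by the walk started at `u` before it leaves `D`. -/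
noncomputable def green (D : Finset (ℤ × ℤ)) (u v : ℤ × ℤ) : ℝ :=
  ∑' n : ℕ, walkProb D n u v

/-- The discrete Gaussian free field on the box `V_N` with Dirichlet boundary condition: a
centred Gaussian process indexed by the points of `V_N` with covariance one quarter of the
expected number of visits before hitting the inner boundary of `V_N`. -/
structure IsDGFF {Ω : Type*} [MeasurableSpace Ω] (N : ℕ) (η : ℤ × ℤ → Ω → ℝ) (P : Measure Ω) :
    Prop where
  gaussian : IsGaussianProcess (fun v : (box N : Finset (ℤ × ℤ)) => η v) P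
  mean_zero : ∀ v ∈ box N, ∫ ω, η v ω ∂P = 0
  cov : ∀ u ∈ box N, ∀ v ∈ box N,
    cov[η u, η v; P] = (1 / 4) * green (box N \ innerBdry N) u v

end H941
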