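import Pool.Agent.KS6_63.GFF.Defs

/-!
Auxiliary definitions for the proof of the almost open crossing theorem
(problem MP_7362d9_pr).
-/

open MeasureTheory ProbabilityTheory

namespace H941

open Classical in
/-- the points of `D` on no grid line of the grid of mesh `L` shifted by `s` -/
noncomputable def gridSet (D : Finset (ℤ × ℤ)) (L : ℕ) (s : ℤ × ℤ) : Finset (ℤ × ℤ) :=
  D.filter (fun z => ¬ ((L : ℤ) ∣ z.1 - s.1) ∧ ¬ ((L : ℤ) ∣ z.2 - s.2))

/-- covariance of the field at scale `L`: one quarter of the average over grid shifts of the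
difference of Green functions of the cells of mesh `2L` and `L` -/
noncomputable def Gam (D : Finset (ℤ × ℤ)) (Λ L : ℕ) (x y : ℤ × ℤ) : ℝ :=
  (1 / 4) * (1 / (Λ : ℝ) ^ 2) * ∑ a ∈ Finset.range Λ, ∑ b ∈ Finset.range Λ,
    (green (gridSet D (2 * L) ((a : ℤ), (b : ℤ))) x y - green (gridSet D L ((a : ℤ), (b : ℤ))) x y)

/-- the sign of a Boolean, as a complex number -/
noncomputable def bsign (b : Bool) : ℂ := if b then 1 else -1

/-- A segment is a pair (base point, direction vector).  `child δ b k s` is the `k`-th of the 64 pieces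
of the bent segment `s.1 → s.1 + (1/2 ± iδ) s.2 → s.1 + s.2` (32 pieces on each half). -/
noncomputable def child (δ : ℝ) (b : Bool) (k : ℕ) (s : ℂ × ℂ) : ℂ × ℂ :=
  if k < 32 then
    (s.1 + ((k : ℂ) / 32) * ((1 / 2 + bsign b * δ * Complex.I) * s.2),
      (1 / 32) * ((1 / 2 + bsign b * δ * Complex.I) * s.2))
  else
    (s.1 + (1 / 2 + bsign b * δ * Complex.I) * s.2
        + (((k : ℂ) - 32) / 32) * ((1 / 2 - bsign b * δ * Complex.I) * s.2),
      (1 / 32) * ((1 / 2 - bsign b * δ * Complex.I) * s.2))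

/-- integer part of a point of the plane -/
noncomputable def rd (z : ℂ) : ℤ × ℤ := (⌊z.re⌋, ⌊z.im⌋)

/-- a lattice point as a complex number -/
noncomputable def toC (v : ℤ × ℤ) : ℂ := ⟨(v.1 : ℝ), (v.2 : ℝ)⟩

/-- lattice points visited when following the segment `s` in `q` equal steps -/
noncomputable def finalVerts (q : ℕ) (s : ℂ × ℂ) : List (ℤ × ℤ) :=
  (List.range q).flatMap (fun k =>
    [(⌊(s.1 + (((k : ℂ) + 1) / q) * s.2).re⌋, ⌊(s.1 + ((k : ℂ) / q) * s.2).im⌋),
      rd (s.1 + (((k : ℂ) + 1) / q) * s.2)])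

/-- the lattice points visited by the curve obtained from `s` by `m` bending steps, the bends at
level `j` having size `δ j` and sign given by the oracle `σ` -/
noncomputable def leaves (δ : ℕ → ℝ) (q : ℕ) (σ : ℕ → ℂ × ℂ → Bool) : ℕ → ℕ → ℂ × ℂ → List (ℤ × ℤ)
  | 0, _, s => finalVerts q s
  | m + 1, j, s => (List.range 64).flatMap (fun k => leaves δ q σ m (j + 1) (child (δ j) (σ j s) k s))

/-- the segment reached from `s` (at level `j`) after `i` bending steps with prescribed digits `c` -/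
noncomputable def pst (δ : ℕ → ℝ) (j : ℕ) (s : ℂ × ℂ) (c : ℕ → Fin 64 × Bool) : ℕ → ℂ × ℂ
  | 0 => s
  | i + 1 => child (δ (j + i)) (c i).2 ((c i).1 : ℕ) (pst δ j s c i)

/-- extension of a finite digit sequence by a default digit -/
def extd {n : ℕ} (c : Fin n → Fin 64 × Bool) (i : ℕ) : Fin 64 × Bool :=
  if h : i < n then c ⟨i, h⟩ else (0, true)

open Classical in
/-- the random oracle: at level `i` and segment `s` the sign is `true` if the linear functional
`W i s` of the `i`-th field is `≤ 0` -/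
noncomputable def oracle {ι : Type} [Fintype ι] {n : ℕ} (W : ℕ → ℂ × ℂ → ι → ℝ)
    (ω : Fin (n + 1) → EuclideanSpace ℝ ι) (i : ℕ) (s : ℂ × ℂ) : Bool :=
  if h : i < n then decide (∑ y, W i s y * ω ⟨i, Nat.lt_succ_of_lt h⟩ y ≤ 0) else true

/-- lattice points in one of the squares of half side `ρ` centred near the points
`s.1 + (m/T) s.2 ± (7/8) i δ s.2`, `m = 0, …, T` -/
noncomputable def region (T ρ : ℕ) (δ : ℝ) (b : Bool) (s : ℂ × ℂ) : Finset (ℤ × ℤ) :=
  (Finset.range (T + 1)).biUnion (fun m =>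
    Finset.Icc ((rd (s.1 + ((m : ℂ) / T) * s.2 + bsign b * δ * Complex.I * (7 / 8) * s.2)).1 - ρ)
        ((rd (s.1 + ((m : ℂ) / T) * s.2 + bsign b * δ * Complex.I * (7 / 8) * s.2)).1 + ρ) ×ˢ
      Finset.Icc ((rd (s.1 + ((m : ℂ) / T) * s.2 + bsign b * δ * Complex.I * (7 / 8) * s.2)).2 - ρ)
        ((rd (s.1 + ((m : ℂ) / T) * s.2 + bsign b * δ * Complex.I * (7 / 8) * s.2)).2 + ρ))

open Classical in
/-- the linear functional comparing the two sides of the segment `s` -/
noncomputable def Wfun (S : Finset (ℤ × ℤ)) (T ρ : ℕ) (δ : ℝ) (s : ℂ × ℂ) (y : (S : Finset (ℤ × ℤ))) : ℝ :=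
  (if (y : ℤ × ℤ) ∈ region T ρ δ true s then 1 else 0) - (if (y : ℤ × ℤ) ∈ region T ρ δ false s then 1 else 0)

/-- number of bending levels -/
noncomputable def nlev (N : ℕ) : ℕ := Nat.log 2 N / 12

/-- bend size -/
noncomputable def del (N : ℕ) : ℝ := 1 / Real.sqrt ((nlev N : ℕ) : ℝ)

/-- ratio of consecutive segment lengths -/
noncomputable def rat (N : ℕ) : ℝ := Real.sqrt (1 + 4 * del N ^ 2) / 64

/-- abscissa of the right side of the box of size `⌊α N⌋` -/
noncomputable def absc (α : ℝ) (N : ℕ) : ℕ := ⌊α * (N : ℝ)⌋₊ / 2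

/-- length of the initial segment -/
noncomputable def len0 (α β : ℝ) (N : ℕ) : ℕ := absc β N - absc α N

/-- scaled bend size at level `i` -/
noncomputable def dd (α β : ℝ) (N i : ℕ) : ℝ := del N * ((len0 α β N : ℝ) * rat N ^ i)

/-- cell size at level `i` -/
noncomputable def Lc (α β : ℝ) (N i : ℕ) : ℕ := 2 ^ Nat.log 2 ⌊dd α β N i / 32⌋₊

/-- number of steps on final segments -/
noncomputable def qf (α β : ℝ) (N : ℕ) : ℕ := ⌈(len0 α β N : ℝ) * rat N ^ nlev N⌉₊

end H941
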