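import Pool.Agent.KS6_63.GFF.Defs2

/-!
Auxiliary definitions for the theorems on open crossings of linear length
(problem MP_7362d9_pr).
-/

open MeasureTheory ProbabilityTheory

namespace H941

/-- probability that the walk from `z` killed on leaving `D` hits `K` for the first time at `v`
(for `z ∉ K`, `v ∈ K`) -/
noncomputable def hit (D K : Finset (ℤ × ℤ)) (z v : ℤ × ℤ) : ℝ :=
  (1 / 4) * ∑ u ∈ nbrs v, green (D \ K) z u

/-- lattice rectangle with columns `a, …, b` and rows `c, …, d` -/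
noncomputable def rect (a b c d : ℤ) : Finset (ℤ × ℤ) := Finset.Icc a b ×ˢ Finset.Icc c d

open Classical in
/-- exploration, from the vertices of `K0`, of the vertices of `R` satisfying `op`: the first component
is the set of examined vertices after `k` steps, the second the set of vertices satisfying `op` examined
at step `k` for the first time -/
noncomputable def expl (R K0 : Finset (ℤ × ℤ)) (op : ℤ × ℤ → Prop) :
    ℕ → Finset (ℤ × ℤ) × Finset (ℤ × ℤ)
  | 0 => (K0, K0.filter op)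
  | k + 1 =>
    ((expl R K0 op k).1 ∪ R.filter (fun v => ∃ u ∈ (expl R K0 op k).2, v ∈ nbrs u),
      ((R.filter (fun v => ∃ u ∈ (expl R K0 op k).2, v ∈ nbrs u)) \ (expl R K0 op k).1).filter op)

/-- square where the observable is averaged -/
noncomputable def Qs (w : ℕ) : Finset (ℤ × ℤ) := rect (5 * w + 1) (6 * w) (w / 4 + 1) (w / 2)

/-- a centred Gaussian process on `D` with covariance one quarter of the Green function of `D` -/
structure IsField {Ω : Type*} [MeasurableSpace Ω] (D : Finset (ℤ × ℤ)) (φ : ℤ × ℤ → Ω → ℝ)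
    (P : Measure Ω) : Prop where
  gaussian : IsGaussianProcess (fun v : (D : Finset (ℤ × ℤ)) => φ v) P
  mean_zero : ∀ v ∈ D, ∫ ω, φ v ω ∂P = 0
  cov : ∀ u ∈ D, ∀ v ∈ D, cov[φ u, φ v; P] = (1 / 4) * green D u v

/-- placement of local coordinates: `o` tells the orientation, `t` the position -/
def place (o : Bool) (t v : ℤ × ℤ) : ℤ × ℤ :=
  if o then (t.1 + v.1, t.2 + v.2) else (t.1 + v.2, t.2 + v.1)

/-- `f` has a short crossing, at heights at most `lam`, of the placed `4 w` by `w` rectangle -/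
def armOK (o : Bool) (t : ℤ × ℤ) (w d : ℕ) (lam len : ℝ) (f : ℤ × ℤ → ℝ) : Prop :=
  ∃ (u v : ℤ × ℤ) (p : grid.Walk u v), u.1 = w ∧ v.1 = 5 * w ∧
    (∀ z ∈ p.support, z ∈ rect w (5 * w) d (w - d) ∧ f (place o t z) ≤ lam) ∧
    (p.support.length : ℝ) ≤ len

/-- the four arms of a circuit around `c` -/
def circuitOK (c : ℤ × ℤ) (w d : ℕ) (lam len : ℝ) (f : ℤ × ℤ → ℝ) : Prop :=
  armOK true (c.1 - 3 * w, c.2 + w) w d lam len f ∧
  armOK true (c.1 - 3 * w, c.2 - 2 * w) w d lam len f ∧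
  armOK false (c.1 + w, c.2 - 3 * w) w d lam len f ∧
  armOK false (c.1 - 2 * w, c.2 - 3 * w) w d lam len f

/-- the segments obtained from `s` (at level `j`) by `m` bending steps -/
noncomputable def segs (δ : ℕ → ℝ) (σ : ℕ → ℂ × ℂ → Bool) : ℕ → ℕ → ℂ × ℂ → List (ℂ × ℂ)
  | 0, _, s => [s]
  | m + 1, j, s => (List.range 64).flatMap (fun k => segs δ σ m (j + 1) (child (δ j) (σ j s) k s))

/-- the function on the lattice with the values `x` on `S` and `0` elsewhere -/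
noncomputable def extf (S : Finset (ℤ × ℤ)) (x : EuclideanSpace ℝ (S : Finset (ℤ × ℤ))) (v : ℤ × ℤ) : ℝ :=
  if h : v ∈ S then x ⟨v, h⟩ else 0

/-- bend size at level `i` -/
noncomputable def bd (s : ℝ) (i : ℕ) : ℝ := s * ((i : ℝ) + 1) ^ (-(3 / 5) : ℝ)

/-- length of the segments at level `i` -/
noncomputable def dl (s ℓ : ℝ) (i : ℕ) : ℝ := ℓ * ∏ k ∈ Finset.range i, (Real.sqrt (1 + 4 * bd s k ^ 2) / 64)

/-- cell size at level `i` -/
noncomputable def lc (s ℓ : ℝ) (i : ℕ) : ℕ := 2 ^ Nat.log 2 ⌊bd s i * dl s ℓ i / 32⌋₊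

/-- number of levels -/
noncomputable def nl (N : ℕ) : ℕ := Nat.log 64 (N / (Nat.log 2 N) ^ 8)

/-- number of levels between a circuit and the levels used for selecting the curve -/
noncomputable def mg (N : ℕ) : ℕ := Nat.log 64 ((Nat.log 2 N) ^ 6) + 1

/-- width of the circuits at level `i` -/
noncomputable def wd (N i : ℕ) : ℕ := N / 64 ^ i

/-- margin of the circuits at level `i` -/
noncomputable def dw (N i : ℕ) : ℕ := wd N i / (Nat.log 2 N) ^ 2

/-- length of the initial segment -/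
noncomputable def lB (β : ℝ) (N : ℕ) : ℕ := ⌊β * (N : ℝ)⌋₊ / 2 + 10

/-- the conditions on the parameters used in the proof -/
structure Par (s : ℝ) (ℓ N : ℕ) : Prop where
  lg : 1000 ≤ Nat.log 2 N
  s_pos : 0 < s
  s_le : s ≤ 1 / 8
  big : ∀ i < nl N, 96 ≤ bd s i * dl s ℓ i
  lc_fac : ∀ i < nl N, 1 ≤ lc s ℓ i ∧ 2 * (lc s ℓ i : ℝ) ≤ bd s i * dl s ℓ i / 16 ∧
    bd s i * dl s ℓ i / 64 ≤ lc s ℓ i
  lc_dvd : ∀ i, i + 1 < nl N → 2 * lc s ℓ (i + 1) ∣ lc s ℓ i
  lc_dvd0 : ∀ i < nl N, 2 * lc s ℓ i ∣ 2 * lc s ℓ 0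
  dl_le : ∀ i ≤ nl N, dl s ℓ i ≤ wd N i
  wd_ge : ∀ i ≤ nl N, (Nat.log 2 N) ^ 8 ≤ wd N i
  cell : ∀ i ≤ nl N, mg N < i → 9 * (wd N i : ℝ) * (Nat.log 2 N : ℝ) ^ 4 ≤ lc s ℓ (i - mg N - 1)
  near : ∀ i ≤ nl N, ∀ k, k + mg N < i → 100 * (wd N i : ℝ) ≤ bd s k * dl s ℓ k
  bulk : ∀ (z : ℤ × ℤ) (τ : ℝ), 0 ≤ τ → τ ≤ 1 → ‖toC z - (-5 + (τ : ℂ) * (ℓ : ℂ))‖ ≤ 4 * (s * ℓ) →
    z ∈ box N \ innerBdry N

/-- the covariance matrices of the levels -/
noncomputable def GG (N : ℕ) (s : ℝ) (ℓ k : ℕ) : Matrix ↥(box N) ↥(box N) ℝ :=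
  if k < nl N then Matrix.of (fun x y : ↥(box N) => Gam (box N \ innerBdry N) (2 * lc s ℓ 0) (lc s ℓ k) x y)
  else Matrix.of (fun x y : ↥(box N) => (1 / 4) * green (box N \ innerBdry N) x y -
    ∑ i ∈ Finset.range (nl N), Gam (box N \ innerBdry N) (2 * lc s ℓ 0) (lc s ℓ i) x y)

/-- the functionals deciding the signs of the bends -/
noncomputable def WW (N : ℕ) (s : ℝ) (ℓ : ℕ) (i : ℕ) (seg : ℂ × ℂ) : ↥(box N) → ℝ :=
  Wfun (box N) ⌈16 / bd s i⌉₊ ⌈3 / 8 * (bd s i * dl s ℓ i)⌉₊ (bd s i) seg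

/-- the event that the sign at level `i` may be `b` -/
def sgn (N : ℕ) (s : ℝ) (ℓ : ℕ) (b : Bool) (i : ℕ) (seg : ℂ × ℂ) : Set (EuclideanSpace ℝ ↥(box N)) :=
  {x | (if b then (1 : ℝ) else -1) * ∑ y, WW N s ℓ i seg y * x y ≤ 0}

/-- centre of a segment -/
noncomputable def mid (s : ℂ × ℂ) : ℤ × ℤ := rd (s.1 + (1 / 2) * s.2)

/-- allowed length of the arms of the circuits at level `i` -/
noncomputable def ln (N : ℕ) (lam : ℝ) (i : ℕ) : ℝ := 10 ^ 10 * wd N i * (lam + 20 * Nat.log 2 N) / lam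

/-- the product measure of the levels -/
noncomputable def PP (N : ℕ) (s : ℝ) (ℓ : ℕ) : Measure (Fin (nl N + 1) → EuclideanSpace ℝ ↥(box N)) :=
  Measure.pi (fun k : Fin (nl N + 1) => multivariateGaussian (0 : EuclideanSpace ℝ ↥(box N)) (GG N s ℓ k))

/-- bound for the probability that an arm fails for the local field -/
noncomputable def qq (N : ℕ) (lam : ℝ) (i : ℕ) : ℝ :=
  2 * Real.exp (-(lam ^ 2 / 10 ^ 17)) +
    14 * (wd N i : ℝ) ^ 2 * Real.exp (-((20 * Nat.log 2 N) ^ 2 / Real.log (1 + 98 * (wd N i : ℝ) ^ 2)))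

/-- variance bound at level `i` -/
noncomputable def v0 (N i : ℕ) : ℝ := 3 * i + 4 * (Real.log (Nat.log 2 N) / Real.log 2) + 5

/-- the segment `seg` at level `i` is good for `f`: a circuit around it (`i < nl N`), or all its lattice points
have height at most `L` (`i = nl N`) -/
def Gd (N q : ℕ) (len : ℕ → ℝ) (L : ℝ) (f : ℤ × ℤ → ℝ) (i : ℕ) (seg : ℂ × ℂ) : Prop :=
  if i < nl N then circuitOK (mid seg) (wd N i) (dw N i) L (len i) f
  else ∀ v ∈ finalVerts q seg, f v ≤ L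

end H941
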