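import Pool.Agent.KS6_63.GFF.Defs3

/-!
Auxiliary definitions for the theorem on open crossings of linear length at fixed levels
(problem MP_7362d9_pr).
-/

open MeasureTheory ProbabilityTheory

namespace H941

/-- square of half side `r` about `x` -/
noncomputable def ball (x : ℤ × ℤ) (r : ℤ) : Finset (ℤ × ℤ) :=
  rect (x.1 - r) (x.1 + r) (x.2 - r) (x.2 + r)

/-- probability that the walk from `x` leaves `B` at `v` (for `v ∉ B`) -/
noncomputable def ex (B : Finset (ℤ × ℤ)) (x v : ℤ × ℤ) : ℝ := (1 / 4) * ∑ u ∈ nbrs v, green B x u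

/-- Dirichlet energy of `u` at `x` -/
noncomputable def en (u : ℤ × ℤ → ℝ) (x : ℤ × ℤ) : ℝ := ∑ y ∈ nbrs x, (u x - u y) ^ 2

/-- Green potential of the weights `ρ` on `Q` -/
noncomputable def gp (E Q : Finset (ℤ × ℤ)) (ρ : ℤ × ℤ → ℝ) (x : ℤ × ℤ) : ℝ := ∑ z ∈ Q, ρ z * green E z x

open Classical in
/-- harmonic extension to `D \ K` of the values of `f` on `K` (and `0` outside `D`) -/
noncomputable def hx (D K : Finset (ℤ × ℤ)) (f : ℤ × ℤ → ℝ) (u : ℤ × ℤ) : ℝ :=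
  if u ∈ K then f u else ∑ v ∈ K, hit D K u v * f v

/-- cutoff profile -/
noncomputable def th (r t : ℝ) : ℝ := (1 - (max 0 (min 1 ((|t| - r) / r))) ^ 2) ^ 2

/-- cutoff function: `1` on the square of half side `r` about `c`, `0` outside the square of half side `2 r` -/
noncomputable def chi (c : ℤ × ℤ) (r : ℕ) (z : ℤ × ℤ) : ℝ :=
  th r ((z.1 : ℝ) - c.1) * th r ((z.2 : ℝ) - c.2)

/-- centred Gaussian measure on functions on `S` with covariance one quarter of the Green function of `D` -/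
noncomputable def gf (S D : Finset (ℤ × ℤ)) : Measure (EuclideanSpace ℝ (S : Finset (ℤ × ℤ))) :=
  multivariateGaussian (0 : EuclideanSpace ℝ (S : Finset (ℤ × ℤ)))
    (Matrix.of fun x y : (S : Finset (ℤ × ℤ)) => (1 / 4) * green D x y)

/-- domain of the local field -/
noncomputable def Dw (w : ℕ) : Finset (ℤ × ℤ) := rect 1 (7 * w - 1) 1 (w - 1)

/-- vertices examined after `k` steps of the exploration of the vertices of height at most `lam` -/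
noncomputable def Kk (w d : ℕ) (lam : ℝ) (f : ℤ × ℤ → ℝ) (k : ℕ) : Finset (ℤ × ℤ) :=
  (expl (rect w (5 * w) d (w - d)) (rect w w d (w - d)) (fun v => f v ≤ lam) k).1

/-- vertices of height at most `lam` found at step `k` -/
noncomputable def Lk (w d : ℕ) (lam : ℝ) (f : ℤ × ℤ → ℝ) (k : ℕ) : Finset (ℤ × ℤ) :=
  (expl (rect w (5 * w) d (w - d)) (rect w w d (w - d)) (fun v => f v ≤ lam) k).2

/-- the local field at scale `w` has a cheap arm at level `u`, up to probability `q` -/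
def HypA (u Kh q : ℝ) (w : ℕ) : Prop :=
  gf (Dw w) (Dw w) {x | ¬ armOK true (0, 0) w (w / 4) u (Kh * w) (extf (Dw w) x)} ≤ ENNReal.ofReal q

/-- neither a cheap circuit of low vertices nor a circuit of high vertices around `c` -/
def bad (lam Kh : ℝ) (c : ℤ × ℤ) (W : ℕ) (f : ℤ × ℤ → ℝ) : Prop :=
  ¬ circuitOK c W (W / 4) lam (Kh * W) f ∧ ¬ circuitOK c W (W / 4) (-(lam + 1)) (Kh * W) (fun z => -f z)

/-- mean oscillation of `g` about `v` at scale `r` -/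
noncomputable def Aosc (v : ℤ × ℤ) (r : ℕ) (g : ℤ × ℤ → ℝ) : ℝ :=
  (1 / (r : ℝ) ^ 2) * ∑ z ∈ ball v ((3 * r / 4 : ℕ) : ℤ), |g z - g v|

/-- lower left corner of the dyadic square of side `2 ^ i` containing `v` -/
def cr (i : ℕ) (v : ℤ × ℤ) : ℤ × ℤ := (2 ^ i * (v.1 / 2 ^ i), 2 ^ i * (v.2 / 2 ^ i))

/-- a cheap circuit of low vertices, inside the explored rectangle, around the dyadic square of side `2 ^ i` with corner `c` -/
def goodB (w d : ℕ) (lam Kp : ℝ) (f : ℤ × ℤ → ℝ) (i : ℕ) (c : ℤ × ℤ) : Prop :=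
  ball c (256 * 2 ^ i) ⊆ rect (w + 1) (5 * w) d (w - d) ∧
  ∃ H : Finset (ℤ × ℤ), (grid.induce (H : Set (ℤ × ℤ))).Connected ∧ (∀ z ∈ H, f z ≤ lam ∧ z ∈ ball c (256 * 2 ^ i)) ∧
    (H.card : ℝ) ≤ Kp * 2 ^ i ∧
    ∀ a b : ℤ × ℤ, a ∈ ball c (128 * 2 ^ i) → b ∉ ball c (256 * 2 ^ i) → ∀ r : grid.Walk a b, ∃ z ∈ r.support, z ∈ H

/-- `c` is the corner of a maximal good square of side `2 ^ j` -/
def selB (w d : ℕ) (lam Kp : ℝ) (f : ℤ × ℤ → ℝ) (j : ℕ) (c : ℤ × ℤ) : Prop :=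
  goodB w d lam Kp f j c ∧ ∀ i, j < i → ¬ goodB w d lam Kp f i (cr i c)

/-- `v` lies in no good square -/
def sgl (w d : ℕ) (lam Kp : ℝ) (f : ℤ × ℤ → ℝ) (v : ℤ × ℤ) : Prop := ∀ i, ¬ goodB w d lam Kp f i (cr i v)

/-- the square of side `2 ^ j` with corner `c` was visited for the first time during the last `m` steps before step `k` -/
def act (w d : ℕ) (lam : ℝ) (f : ℤ × ℤ → ℝ) (j m k : ℕ) (c : ℤ × ℤ) : Prop :=
  ∃ k' ≤ k, k ≤ k' + m ∧ (∃ z ∈ Lk w d lam f k', cr j z = c) ∧ ∀ k'' < k', ∀ z ∈ Lk w d lam f k'', cr j z ≠ c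

open Classical in
/-- corners of the selected and active squares of side `2 ^ j` at step `k` -/
noncomputable def Ak (w d : ℕ) (lam Kp : ℝ) (f : ℤ × ℤ → ℝ) (j m k : ℕ) : Finset (ℤ × ℤ) :=
  (rect 0 (7 * w) 0 w).filter (fun c => cr j c = c ∧ act w d lam f j m k c ∧ selB w d lam Kp f j c)

/-- uniform weights on `Qs w` -/
noncomputable def rq (w : ℕ) (_ : ℤ × ℤ) : ℝ := 1 / ((Qs w).card : ℝ)

/-- conditional mean of the averaged field at step `k` -/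
noncomputable def Mk (w d : ℕ) (lam : ℝ) (f : ℤ × ℤ → ℝ) (k : ℕ) : ℝ :=
  ∑ v ∈ Kk w d lam f k, (∑ z ∈ Qs w, rq w z * hit (Dw w) (Kk w d lam f k) z v) * f v

/-- weighted mean square of `lam` minus the conditional mean near `c`, at step `k` -/
noncomputable def Phi (kap : ℝ) (w d : ℕ) (lam : ℝ) (f : ℤ × ℤ → ℝ) (k : ℕ) (c : ℤ × ℤ) (r : ℕ) : ℝ :=
  ∑ l ∈ Finset.range (Nat.log 2 r + 2), (2 : ℝ) ^ (-(kap * l)) *
    Real.sqrt ((1 / (r : ℝ) ^ 2) * ∑ u ∈ (ball c (2 * r + 1)).filter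
      (fun u => ball u ((r / 2 ^ (l + 1) : ℕ) : ℤ) ⊆ Dw w \ Kk w d lam f k), (lam - hx (Dw w) (Kk w d lam f k) f u) ^ 2)

open Classical in
/-- total square deviation over the vertices lying in no good square -/
noncomputable def Ys (w d : ℕ) (lam Kp : ℝ) (f : ℤ × ℤ → ℝ) (T : ℕ) : ℝ :=
  ∑ k ∈ Finset.range T, ∑ v ∈ (Lk w d lam f k).filter (fun v => sgl w d lam Kp f v), (lam - f v) ^ 2

/-- the same for the selected squares of side `2 ^ j` -/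
noncomputable def Yb (kap : ℝ) (w d : ℕ) (lam Kp : ℝ) (f : ℤ × ℤ → ℝ) (j m T : ℕ) : ℝ :=
  ∑ k ∈ Finset.range T, ∑ c ∈ Ak w d lam Kp f j m k, (Phi kap w d lam f k c (2 ^ (j + 1))) ^ 2

/-- the same for the squares along the two long sides of the rectangle -/
noncomputable def Ye (kap : ℝ) (w d : ℕ) (lam : ℝ) (f : ℤ × ℤ → ℝ) (T : ℕ) : ℝ :=
  ∑ k ∈ Finset.range T, ∑ b ∈ Finset.range (5 * w / d + 1),
    ((Phi kap w d lam f k ((b : ℤ) * d, 0) (3 * d)) ^ 4 + (Phi kap w d lam f k ((b : ℤ) * d, (w : ℤ)) (3 * d)) ^ 4)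

/-- covariance at scale `L` of the field for the fixed grid shift `a` -/
noncomputable def Gs (V : Finset (ℤ × ℤ)) (L : ℕ) (a x y : ℤ × ℤ) : ℝ :=
  (1 / 4) * (green (gridSet V (2 * L) a) x y - green (gridSet V L a) x y)

/-- `x` lies in the central part of its cell of mesh `2 L` -/
def bulk (L : ℕ) (a x : ℤ × ℤ) : Prop :=
  4 * |(x.1 - a.1) % (2 * (L : ℤ)) - L| ≤ L ∧ 4 * |(x.2 - a.2) % (2 * (L : ℤ)) - L| ≤ L

/-- bend sizes -/
noncomputable def bb (i : ℕ) : ℝ := bd (1 / 100) i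

/-- lengths of the segments -/
noncomputable def ll (w i : ℕ) : ℝ := dl (1 / 100) (5 * (w : ℝ)) i

/-- meshes -/
noncomputable def cc (w i : ℕ) : ℕ := lc (1 / 100) (5 * (w : ℝ)) i

/-- initial segment -/
noncomputable def sg0 (w : ℕ) : ℂ × ℂ := (⟨((w / 2 : ℕ) : ℝ), ((w / 2 : ℕ) : ℝ)⟩, ((5 * w : ℕ) : ℂ))

/-- the segment at level `i` with digits `c` -/
noncomputable def ps (w : ℕ) (c : ℕ → Fin 64 × Bool) (i : ℕ) : ℂ × ℂ := pst bb 0 (sg0 w) c i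

/-- number of levels -/
def nb (u w : ℕ) : ℕ := Nat.log 64 (w / (Nat.log 2 w + u) ^ 16)

/-- width of the circuits -/
def wi (w i : ℕ) : ℕ := 6 * w / 64 ^ i

/-- margin of the circuits -/
def di (u w i : ℕ) : ℕ := wi w i / (i + u) ^ 9

/-- number of levels not used for the selection of the curve near a circuit -/
def gap (u i : ℕ) : ℕ := 6 * (Nat.log 2 (i + u) + 1)

/-- the conditions on the parameters -/
structure ParC (u w : ℕ) : Prop where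
  u_ge : 10 ^ 6 ≤ u
  n_ge : 4 ≤ nb u w
  n_le : nb u w ≤ Nat.log 2 w
  w_lt : w < 64 ^ (nb u w + 1) * (Nat.log 2 w + u) ^ 16
  log_le : Nat.log 2 w ≤ 12 * nb u w + u + 12
  big : ∀ i < nb u w, 96 ≤ bb i * ll w i
  cc_fac : ∀ i < nb u w, 16 ≤ cc w i ∧ 2 * (cc w i : ℝ) ≤ bb i * ll w i / 16 ∧ bb i * ll w i / 64 ≤ cc w i
  cc_dvd : ∀ i, i + 1 < nb u w → 2 * cc w (i + 1) ∣ cc w i ∧ 16 * cc w (i + 1) ≤ cc w i
  cc_dvd0 : ∀ i < nb u w, 2 * cc w i ∣ 2 * cc w 0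
  ll_le : ∀ i ≤ nb u w, ll w i ≤ wi w i
  wi_ge : ∀ i ≤ nb u w, (Nat.log 2 w + u) ^ 16 ≤ wi w i ∧ 5 * w ≤ 64 ^ i * wi w i ∧ 64 ^ i * wi w i ≤ 6 * w
  di_ge : ∀ i ≤ nb u w, 64 ≤ di u w i ∧ 10 ^ 9 * di u w i ≤ wi w i ∧ wi w i ≤ 2 * (i + u) ^ 9 * di u w i
  near : ∀ i ≤ nb u w, ∀ k, k + gap u i < i → wi w i * (i + u) ^ 34 * 64 ^ (i - gap u i - 1 - k) ≤ cc w k
  bulkD : ∀ (z : ℤ × ℤ) (τ : ℝ), 0 ≤ τ → τ ≤ 1 → ‖toC z - ((sg0 w).1 + (τ : ℂ) * (sg0 w).2)‖ ≤ w / 4 → z ∈ Dw w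

/-- the covariance matrices of the levels -/
noncomputable def GC (u w : ℕ) (a : ℤ × ℤ) (k : ℕ) : Matrix ↥(Dw w) ↥(Dw w) ℝ :=
  if k < nb u w then Matrix.of (fun x y : ↥(Dw w) => Gs (Dw w) (cc w k) a x y)
  else Matrix.of (fun x y : ↥(Dw w) => (1 / 4) * green (Dw w) x y -
    ∑ i ∈ Finset.range (nb u w), Gs (Dw w) (cc w i) a x y)

/-- the joint law of the levels -/
noncomputable def PC (u w : ℕ) (a : ℤ × ℤ) : Measure (Fin (nb u w + 1) → EuclideanSpace ℝ ↥(Dw w)) :=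
  Measure.pi (fun k : Fin (nb u w + 1) => multivariateGaussian (0 : EuclideanSpace ℝ ↥(Dw w)) (GC u w a k))

/-- the functionals deciding the signs of the bends -/
noncomputable def WC (w i : ℕ) (seg : ℂ × ℂ) : ↥(Dw w) → ℝ :=
  Wfun (Dw w) ⌈16 / bb i⌉₊ ⌈3 / 8 * (bb i * ll w i)⌉₊ (bb i) seg

/-- the event that the sign at level `i` may be `b` -/
def sC (w : ℕ) (b : Bool) (i : ℕ) (seg : ℂ × ℂ) : Set (EuclideanSpace ℝ ↥(Dw w)) :=
  {x | (if b then (1 : ℝ) else -1) * ∑ y, WC w i seg y * x y ≤ 0}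

/-- the four placements of the arms of a circuit around `c` -/
def armAt (c : ℤ × ℤ) (W : ℕ) (o : Bool) (t : ℤ × ℤ) : Prop :=
  (o = true ∧ t = (c.1 - 3 * W, c.2 + W)) ∨ (o = true ∧ t = (c.1 - 3 * W, c.2 - 2 * W)) ∨
    (o = false ∧ t = (c.1 + W, c.2 - 3 * W)) ∨ (o = false ∧ t = (c.1 - 2 * W, c.2 - 3 * W))

/-- centre of a placed arm -/
def xa (o : Bool) (t : ℤ × ℤ) (W : ℕ) : ℤ × ℤ := place o t (3 * (W : ℤ), ((W / 2 : ℕ) : ℤ))

/-- the grid lines of the first `j` levels are far from `x` -/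
def clr (w W j : ℕ) (a x : ℤ × ℤ) : Prop :=
  ∀ k < j, ∀ z ∈ ball x ((Nat.sqrt (W * cc w k) : ℕ) : ℤ), z ∈ gridSet (Dw w) (cc w k) a

/-- the segment `seg` at level `i` is good for `f` -/
def GdC (u w : ℕ) (f : ℤ × ℤ → ℝ) (i : ℕ) (seg : ℂ × ℂ) : Prop :=
  if i < nb u w then circuitOK (mid seg) (wi w i) (di u w i) u (((i : ℝ) + u) ^ 9 * wi w i) f
  else ∀ v ∈ finalVerts ⌈ll w (nb u w)⌉₊ seg, f v ≤ u

end H941
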